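import Mathlib

/-!
# Counting chains modulo 2 under a 2-group without fixed points
-/

namespace Pool.Agent.helper95.QL

open Finset

theorem eq_of_le_smul {L S : Type*} [PartialOrder L] [Group S] [Finite S] [MulAction S L]
    (hmono : ∀ (σ : S) (a b : L), a ≤ b → σ • a ≤ σ • b) (σ : S) (a : L) (h : a ≤ σ • a) :
    σ • a = a := by
  have h1 : ∀ n : ℕ, σ • a ≤ σ ^ (n + 1) • a := by
    intro n
    induction n with
    | zero => simp
    | succ n ih =>
      have h2 : σ • a ≤ σ ^ (n + 1) • (σ • a) := by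
        have h3 := hmono (σ ^ (n + 1)) _ _ h
        exact ih.trans h3
      rwa [← mul_smul, ← pow_succ] at h2
  have h2 := h1 (orderOf σ - 1)
  have h3 : orderOf σ - 1 + 1 = orderOf σ := Nat.sub_add_cancel (orderOf_pos σ)
  rw [h3, pow_orderOf_eq_one, one_smul] at h2
  exact le_antisymm h2 h

theorem odd_chains {L S : Type*} [PartialOrder L] [Finite L] [Group S] [Finite S] (hS : IsPGroup 2 S)
    [MulAction S L] (hmono : ∀ (σ : S) (a b : L), a ≤ b → σ • a ≤ σ • b) (pred : L → Prop)
    (hpred : ∀ (σ : S) (a : L), pred a → pred (σ • a))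
    (hfix : ∀ a : L, pred a → ∃ σ : S, σ • a ≠ a) :
    Odd (Nat.card {s : Finset L // IsChain (· ≤ ·) (s : Set L) ∧ ∀ a ∈ s, pred a}) := by
  classical
  have : Fact (Nat.Prime 2) := ⟨Nat.prime_two⟩
  set α := {s : Finset L // IsChain (· ≤ ·) (s : Set L) ∧ ∀ a ∈ s, pred a} with hα
  have hst : ∀ (σ : S) (s : α), IsChain (· ≤ ·) ((s.1.image (fun a => σ • a) : Finset L) : Set L) ∧
      ∀ a ∈ s.1.image (fun a => σ • a), pred a := by
    rintro σ ⟨s, hs1, hs2⟩
    constructor
    · rintro a ha b hb hab
      rw [mem_coe, mem_image] at ha hb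
      obtain ⟨a, ha, rfl⟩ := ha
      obtain ⟨b, hb, rfl⟩ := hb
      rcases hs1.total ha hb with h | h
      · exact Or.inl (hmono σ _ _ h)
      · exact Or.inr (hmono σ _ _ h)
    · intro a ha
      rw [mem_image] at ha
      obtain ⟨a, ha, rfl⟩ := ha
      exact hpred σ a (hs2 a ha)
  let act : MulAction S α :=
    { smul := fun σ s => ⟨s.1.image (fun a => σ • a), hst σ s⟩
      one_smul := by
        rintro ⟨s, hs⟩
        apply Subtype.ext
        change s.image (fun a => (1 : S) • a) = s
        simp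
      mul_smul := by
        rintro σ τ ⟨s, hs⟩
        apply Subtype.ext
        change s.image (fun a => (σ * τ) • a) = (s.image (fun a => τ • a)).image (fun a => σ • a)
        rw [image_image]
        congr 1
        funext a
        simp [mul_smul] }
  have hmod := hS.card_modEq_card_fixedPoints α
  have h1 : Nat.card (MulAction.fixedPoints S α) = 1 := by
    rw [Nat.card_eq_one_iff_unique]
    refine ⟨⟨?_⟩, ⟨⟨⟨∅, by simp, by simp⟩, fun σ => Subtype.ext ?_⟩⟩⟩
    · have key : ∀ s : MulAction.fixedPoints S α, s.1.1 = ∅ := by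
        rintro ⟨⟨s, hs1, hs2⟩, hfixed⟩
        by_contra hne
        have hne' : s.Nonempty := Finset.nonempty_iff_ne_empty.2 hne
        obtain ⟨a, ha, hmin⟩ := s.exists_minimal hne'
        obtain ⟨σ, hσ⟩ := hfix a (hs2 a ha)
        have h2 : s.image (fun a => σ • a) = s := congrArg Subtype.val (hfixed σ)
        have h3 : σ • a ∈ s := by
          rw [← h2]
          exact mem_image_of_mem _ ha
        have h4 : a ≤ σ • a := by
          rcases hs1.total ha h3 with h | h
          · exact h
          · exact hmin h3 h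
        exact hσ (eq_of_le_smul hmono σ a h4)
      intro a b
      apply Subtype.ext
      apply Subtype.ext
      rw [key a, key b]
    · change (∅ : Finset L).image (fun a => σ • a) = ∅
      simp
  rw [h1] at hmod
  rw [Nat.odd_iff]
  exact hmod

/-- the signed sum over an odd number of chains is nonzero -/
theorem sum_ne_zero_of_odd {L : Type*} [Finite L] (Q : Finset L → Prop)
    (h : Odd (Nat.card {s : Finset L // Q s})) :
    (∑ᶠ (s : Finset L) (_ : Q s), ((-1 : ℤ) ^ (s.card + 1))) ≠ 0 := by
  classical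
  have := Fintype.ofFinite L
  have h1 : (∑ᶠ (s : Finset L) (_ : Q s), ((-1 : ℤ) ^ (s.card + 1))) =
      ∑ s ∈ Finset.univ.filter Q, ((-1 : ℤ) ^ (s.card + 1)) := by
    rw [← finsum_mem_coe_finset]
    simp
  rw [h1]
  have h2 : ((∑ s ∈ Finset.univ.filter Q, ((-1 : ℤ) ^ (s.card + 1)) : ℤ) : ZMod 2) =
      ((Finset.univ.filter Q).card : ZMod 2) := by
    push_cast
    have h3 : (-1 : ZMod 2) = 1 := by decide
    simp [h3]
  intro h0
  rw [h0, Int.cast_zero] at h2
  have h4 : (2 : ℕ) ∣ (Finset.univ.filter Q).card := (ZMod.natCast_eq_zero_iff _ _).1 h2.symm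
  have h5 : Nat.card {s : Finset L // Q s} = (Finset.univ.filter Q).card := by
    rw [Nat.card_eq_fintype_card, Fintype.card_subtype]
  rw [h5] at h
  exact (Nat.not_even_iff_odd.2 h) (even_iff_two_dvd.2 h4)

end Pool.Agent.helper95.QL
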