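import Pool.Agent.helper95.QL.Chains

/-!
# Counting chains modulo `q` under a `q`-group without fixed points
-/

namespace Pool.Agent.helper95.QL

open Finset

theorem card_chains_mod {q : ℕ} [Fact q.Prime] {L S : Type*} [PartialOrder L] [Finite L] [Group S]
    [Finite S] (hS : IsPGroup q S)
    [MulAction S L] (hmono : ∀ (σ : S) (a b : L), a ≤ b → σ • a ≤ σ • b) (pred : L → Prop)
    (hpred : ∀ (σ : S) (a : L), pred a → pred (σ • a))
    (hfix : ∀ a : L, pred a → ∃ σ : S, σ • a ≠ a) (par : ℕ → Prop) :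
    (par 0 → Nat.card {s : Finset L // (IsChain (· ≤ ·) (s : Set L) ∧ ∀ a ∈ s, pred a) ∧
      par s.card} ≡ 1 [MOD q]) ∧
    (¬ par 0 → Nat.card {s : Finset L // (IsChain (· ≤ ·) (s : Set L) ∧ ∀ a ∈ s, pred a) ∧
      par s.card} ≡ 0 [MOD q]) := by
  classical
  set α := {s : Finset L // (IsChain (· ≤ ·) (s : Set L) ∧ ∀ a ∈ s, pred a) ∧ par s.card} with hα
  have hst : ∀ (σ : S) (s : α),
      (IsChain (· ≤ ·) ((s.1.image (fun a => σ • a) : Finset L) : Set L) ∧
      ∀ a ∈ s.1.image (fun a => σ • a), pred a) ∧ par (s.1.image (fun a => σ • a)).card := by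
    rintro σ ⟨s, ⟨hs1, hs2⟩, hs3⟩
    refine ⟨⟨?_, ?_⟩, ?_⟩
    · rintro a ha b hb hab
      rw [mem_coe, mem_image] at ha hb
      obtain ⟨a, ha, rfl⟩ := ha
      obtain ⟨b, hb, rfl⟩ := hb
      rcases hs1.total ha hb with h | h
      · exact Or.inl (hmono σ _ _ h)
      · exact Or.inr (hmono σ _ _ h)
    · intro a ha
      rw [mem_image] at ha
      obtain ⟨a, ha, rfl⟩ := ha
      exact hpred σ a (hs2 a ha)
    · have : (s.image (fun a => σ • a)).card = s.card :=
        card_image_of_injective _ (MulAction.injective σ)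
      change par (s.image (fun a => σ • a)).card
      rw [this]
      exact hs3
  let act : MulAction S α :=
    { smul := fun σ s => ⟨s.1.image (fun a => σ • a), hst σ s⟩
      one_smul := by
        rintro ⟨s, hs⟩
        apply Subtype.ext
        change s.image (fun a => (1 : S) • a) = s
        simp
      mul_smul := by
        rintro σ τ ⟨s, hs⟩
        apply Subtype.ext
        change s.image (fun a => (σ * τ) • a) = (s.image (fun a => τ • a)).image (fun a => σ • a)
        rw [image_image]
        congr 1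
        funext a
        simp [mul_smul] }
  have hmod := hS.card_modEq_card_fixedPoints α
  have key : ∀ s : MulAction.fixedPoints S α, s.1.1 = ∅ := by
    rintro ⟨⟨s, ⟨hs1, hs2⟩, hs3⟩, hfixed⟩
    by_contra hne
    have hne' : s.Nonempty := Finset.nonempty_iff_ne_empty.2 hne
    obtain ⟨a, ha, hmin⟩ := s.exists_minimal hne'
    obtain ⟨σ, hσ⟩ := hfix a (hs2 a ha)
    have h2 : s.image (fun a => σ • a) = s := congrArg Subtype.val (hfixed σ)
    have h3 : σ • a ∈ s := by
      rw [← h2]
      exact mem_image_of_mem _ ha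
    have h4 : a ≤ σ • a := by
      rcases hs1.total ha h3 with h | h
      · exact h
      · exact hmin h3 h
    exact hσ (eq_of_le_smul hmono σ a h4)
  constructor
  · intro h0
    have h1 : Nat.card (MulAction.fixedPoints S α) = 1 := by
      rw [Nat.card_eq_one_iff_unique]
      refine ⟨⟨?_⟩, ⟨⟨⟨∅, ⟨by simp, by simp⟩, by simpa using h0⟩, fun σ => Subtype.ext ?_⟩⟩⟩
      · intro a b
        apply Subtype.ext
        apply Subtype.ext
        rw [key a, key b]
      · change (∅ : Finset L).image (fun a => σ • a) = ∅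
        simp
    rwa [h1] at hmod
  · intro h0
    have h1 : Nat.card (MulAction.fixedPoints S α) = 0 := by
      rw [Nat.card_eq_zero]
      left
      constructor
      intro s
      have h2 := s.1.2.2
      rw [key s] at h2
      exact h0 (by simpa using h2)
    rwa [h1] at hmod

/-- the signed sum is `-1` modulo `q` -/
theorem sum_ne_zero_of_mod {q : ℕ} (hq : q.Prime) {L : Type*} [Finite L] (Q : Finset L → Prop)
    (h1 : Nat.card {s : Finset L // Q s ∧ Even s.card} ≡ 1 [MOD q])
    (h0 : Nat.card {s : Finset L // Q s ∧ ¬ Even s.card} ≡ 0 [MOD q]) :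
    (∑ᶠ (s : Finset L) (_ : Q s), ((-1 : ℤ) ^ (s.card + 1))) ≠ 0 := by
  classical
  have := Fintype.ofFinite L
  have h2 : (∑ᶠ (s : Finset L) (_ : Q s), ((-1 : ℤ) ^ (s.card + 1))) =
      ∑ s ∈ Finset.univ.filter Q, ((-1 : ℤ) ^ (s.card + 1)) := by
    rw [← finsum_mem_coe_finset]
    simp
  rw [h2, ← sum_filter_add_sum_filter_not (Finset.univ.filter Q) (fun s => Even s.card)]
  have h3 : ∑ s ∈ (Finset.univ.filter Q).filter (fun s => Even s.card),
      ((-1 : ℤ) ^ (s.card + 1)) = -(Nat.card {s : Finset L // Q s ∧ Even s.card} : ℤ) := by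
    rw [sum_congr rfl (g := fun _ => (-1 : ℤ))]
    · rw [Nat.card_eq_fintype_card, Fintype.card_subtype, filter_filter]
      simp
    · intro s hs
      rw [mem_filter] at hs
      rw [pow_succ, hs.2.neg_one_pow]
      simp
  have h4 : ∑ s ∈ (Finset.univ.filter Q).filter (fun s => ¬ Even s.card),
      ((-1 : ℤ) ^ (s.card + 1)) = (Nat.card {s : Finset L // Q s ∧ ¬ Even s.card} : ℤ) := by
    rw [sum_congr rfl (g := fun _ => (1 : ℤ))]
    · rw [Nat.card_eq_fintype_card, Fintype.card_subtype, filter_filter]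
      simp
    · intro s hs
      rw [mem_filter] at hs
      rw [pow_succ, (Nat.not_even_iff_odd.1 hs.2).neg_one_pow]
      simp
  rw [h3, h4]
  intro h
  have h5 : Nat.card {s : Finset L // Q s ∧ ¬ Even s.card} =
      Nat.card {s : Finset L // Q s ∧ Even s.card} := by
    have : (Nat.card {s : Finset L // Q s ∧ ¬ Even s.card} : ℤ) =
      (Nat.card {s : Finset L // Q s ∧ Even s.card} : ℤ) := by linarith
    exact_mod_cast this
  rw [h5] at h0
  have h6 : 1 ≡ 0 [MOD q] := h1.symm.trans h0
  have h7 := (Nat.modEq_zero_iff_dvd).1 h6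
  exact hq.one_lt.ne' (Nat.dvd_one.1 h7)

end Pool.Agent.helper95.QL
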