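import Mathlib

/-!
# Finite `p`-groups, `p` odd: a noncentral element of order `p` modulo a central subgroup of order `p`
-/

namespace Pool.Agent.helper95.QL

open Subgroup

variable {P : Type*} [Group P]

/-- power of a product of two elements that commute up to a central element -/
theorem mul_pow_central (s t c : P) (h : t * s = s * t * c) (hcs : Commute c s) (hct : Commute c t)
    (n : ℕ) : (s * t) ^ n = s ^ n * t ^ n * c ^ (n * (n - 1) / 2) := by
  have h1 : ∀ n : ℕ, t ^ n * s = s * t ^ n * c ^ n := by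
    intro n
    induction n with
    | zero => simp
    | succ n ih =>
      have hcn : Commute (c ^ n) t := hct.pow_left n
      calc t ^ (n + 1) * s = t ^ n * (t * s) := by rw [pow_succ, mul_assoc]
        _ = t ^ n * s * (t * c) := by rw [h]; group
        _ = s * t ^ n * c ^ n * (t * c) := by rw [ih]
        _ = s * t ^ n * (c ^ n * t) * c := by group
        _ = s * t ^ n * (t * c ^ n) * c := by rw [hcn.eq]
        _ = s * t ^ (n + 1) * c ^ (n + 1) := by rw [pow_succ, pow_succ]; group
  induction n with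
  | zero => simp
  | succ n ih =>
    have hk : (n + 1) * (n + 1 - 1) / 2 = n * (n - 1) / 2 + n := by
      rcases n with _ | n
      · rfl
      · simp only [Nat.add_sub_cancel]
        have : (n + 1 + 1) * (n + 1) = (n + 1) * n + (n + 1) * 2 := by ring
        rw [this, Nat.add_mul_div_right _ _ (by norm_num)]
    set e := n * (n - 1) / 2 with he
    have hc1 : Commute (c ^ e) s := hcs.pow_left e
    have hc2 : Commute (c ^ e) t := hct.pow_left e
    have hc3 : Commute (c ^ n) t := hct.pow_left n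
    rw [hk]
    calc (s * t) ^ (n + 1) = (s * t) ^ n * (s * t) := pow_succ _ _
      _ = s ^ n * t ^ n * c ^ e * (s * t) := by rw [ih]
      _ = s ^ n * t ^ n * (c ^ e * s) * t := by group
      _ = s ^ n * (t ^ n * s) * (c ^ e * t) := by rw [hc1.eq]; group
      _ = s ^ n * (s * t ^ n * c ^ n) * (t * c ^ e) := by rw [h1, hc2.eq]
      _ = s ^ n * s * t ^ n * (c ^ n * t) * c ^ e := by group
      _ = s ^ n * s * t ^ n * (t * c ^ n) * c ^ e := by rw [hc3.eq]
      _ = s ^ (n + 1) * t ^ (n + 1) * c ^ (e + n) := by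
          rw [pow_succ, pow_succ, add_comm e n, pow_add]; group

/-- if `p` is odd, elements of order dividing `p` that commute modulo a central subgroup of
order `p` multiply to such an element -/
theorem mul_pow_prime {p : ℕ} [Fact p.Prime] (hp2 : p ≠ 2) (s t c : P) (h : t * s = s * t * c)
    (hcs : Commute c s) (hct : Commute c t) (hc : c ^ p = 1) (hs : s ^ p = 1) (ht : t ^ p = 1) :
    (s * t) ^ p = 1 := by
  rw [mul_pow_central s t c h hcs hct, hs, ht]
  have hp : p.Prime := Fact.out
  have hodd : 2 ∣ p - 1 := by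
    rcases hp.eq_two_or_odd' with h | h
    · exact absurd h hp2
    · obtain ⟨k, hk⟩ := h
      exact ⟨k, by omega⟩
  rw [Nat.mul_div_assoc _ hodd, pow_mul, hc]
  simp


/-- the subgroup of all `t ∈ K` with `t ^ p = 1` commuting with `K` modulo `⟨z⟩` -/
def tSub {p : ℕ} [Fact p.Prime] (hp2 : p ≠ 2) (z : P) (hz : z ∈ center P) (hzp : z ^ p = 1)
    (K : Subgroup P) : Subgroup P where
  carrier := {t | t ∈ K ∧ t ^ p = 1 ∧ ∀ y ∈ K, ∃ k : ℕ, y * t = t * y * z ^ k}
  one_mem' := ⟨K.one_mem, one_pow p, fun y _ => ⟨0, by simp⟩⟩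
  mul_mem' := by
    rintro a b ⟨ha1, ha2, ha3⟩ ⟨hb1, hb2, hb3⟩
    have hzc : ∀ (k : ℕ) (y : P), Commute (z ^ k) y := fun k y =>
      ((mem_center_iff.1 hz y).symm : z * y = y * z) |> fun h => (show Commute z y from h).pow_left k
    refine ⟨K.mul_mem ha1 hb1, ?_, fun y hy => ?_⟩
    · obtain ⟨k, hk⟩ := ha3 b hb1
      exact mul_pow_prime hp2 a b (z ^ k) hk (hzc k a) (hzc k b)
        (by rw [← pow_mul, mul_comm, pow_mul, hzp, one_pow]) ha2 hb2
    · obtain ⟨k, hk⟩ := ha3 y hy
      obtain ⟨l, hl⟩ := hb3 y hy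
      refine ⟨k + l, ?_⟩
      calc y * (a * b) = (y * a) * b := by group
        _ = a * y * (z ^ k * b) := by rw [hk]; group
        _ = a * (y * b) * z ^ k := by rw [(hzc k b).eq]; group
        _ = a * b * y * (z ^ l * z ^ k) := by rw [hl]; group
        _ = a * b * y * z ^ (k + l) := by rw [← pow_add, add_comm l k]
  inv_mem' := by
    rintro a ⟨ha1, ha2, ha3⟩
    have hzc : ∀ (k : ℕ) (y : P), Commute (z ^ k) y := fun k y =>
      ((mem_center_iff.1 hz y).symm : z * y = y * z) |> fun h => (show Commute z y from h).pow_left k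
    refine ⟨K.inv_mem ha1, by rw [inv_pow, ha2, inv_one], fun y hy => ?_⟩
    obtain ⟨k, hk⟩ := ha3 y⁻¹ (K.inv_mem hy)
    refine ⟨k, ?_⟩
    have h1 : a = y * (a * y⁻¹ * z ^ k) := by rw [← hk]; group
    have h2 : a⁻¹ = (z ^ k)⁻¹ * y * a⁻¹ * y⁻¹ := by
      conv_lhs => rw [h1]
      group
    have h3 : Commute (z ^ k) (y * a⁻¹ * y⁻¹) := hzc k _
    have h4 : z ^ k * a⁻¹ = y * a⁻¹ * y⁻¹ := by
      calc z ^ k * a⁻¹ = z ^ k * ((z ^ k)⁻¹ * y * a⁻¹ * y⁻¹) := by rw [← h2]
        _ = y * a⁻¹ * y⁻¹ := by group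
    calc y * a⁻¹ = (y * a⁻¹ * y⁻¹) * y := by group
      _ = z ^ k * a⁻¹ * y := by rw [← h4]
      _ = z ^ k * (a⁻¹ * y) := by group
      _ = a⁻¹ * y * z ^ k := (hzc k _).eq

theorem exists_central_mod {p : ℕ} [Fact p.Prime] (hp2 : p ≠ 2) [Finite P] (hP : IsPGroup p P)
    (z : P) (hz : z ∈ center P) (hzp : z ^ p = 1) (x : P) (hx : x ∉ zpowers z) (hxp : x ^ p = 1) :
    ∃ t : P, t ∉ zpowers z ∧ t ^ p = 1 ∧ ∀ y : P, ∃ k : ℕ, y * t = t * y * z ^ k := by
  classical
  -- the good subgroups
  let S : Set (Subgroup P) := {K | z ∈ K ∧ ∃ t ∈ tSub hp2 z hz hzp K, t ∉ zpowers z}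
  have hS : S.Nonempty := by
    refine ⟨closure {z, x}, subset_closure (by simp), x, ⟨subset_closure (by simp), hxp, ?_⟩, hx⟩
    intro y hy
    refine ⟨0, ?_⟩
    rw [pow_zero, mul_one]
    refine closure_induction (p := fun y _ => y * x = x * y) ?_ ?_ ?_ ?_ hy
    · rintro y (rfl | rfl)
      · exact (mem_center_iff.1 hz x).symm
      · rfl
    · simp
    · intro a b _ _ ha hb
      rw [mul_assoc, hb, ← mul_assoc, ha, mul_assoc]
    · intro a _ ha
      exact ((show Commute a x from ha).inv_left).eq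
  obtain ⟨K, hKS, hKmax⟩ := (Set.toFinite S).exists_maximal hS
  have hK : K = ⊤ := by
    by_contra hne
    have hlt : K < ⊤ := lt_top_iff_ne_top.2 hne
    have hnil : Group.IsNilpotent P := hP.isNilpotent
    have hnc := Group.normalizerCondition_of_isNilpotent (G := P) K hlt
    set H := normalizer (K : Set P) with hH
    have hHS : H ∈ S := by
      obtain ⟨hzK, t₀, ht₀, ht₀z⟩ := hKS
      refine ⟨hnc.le hzK, ?_⟩
      set T := tSub hp2 z hz hzp K with hT
      have hZn : (zpowers z).Normal := by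
        constructor
        rintro n hn g
        obtain ⟨k, rfl⟩ := mem_zpowers_iff.1 hn
        have : Commute g (z ^ k) := (show Commute g z from mem_center_iff.1 hz g).zpow_right k
        rw [this.eq]
        simpa using hn
      have hconj : ∀ h ∈ H, ∀ t ∈ T, h * t * h⁻¹ ∈ T := by
        rintro h hh t ⟨ht1, ht2, ht3⟩
        have hh' := mem_normalizer_iff.1 hh
        refine ⟨(hh' t).1 ht1, ?_, ?_⟩
        · rw [conj_pow, ht2]; group
        · intro y hy
          have hh'' := mem_normalizer_iff.1 (H.inv_mem hh)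
          obtain ⟨k, hk⟩ := ht3 (h⁻¹ * y * h) (by simpa using (hh'' y).1 hy)
          have hzc : Commute (z ^ k) h⁻¹ :=
            (show Commute z h⁻¹ from (mem_center_iff.1 hz h⁻¹).symm).pow_left k
          refine ⟨k, ?_⟩
          calc y * (h * t * h⁻¹) = h * (h⁻¹ * y * h * t) * h⁻¹ := by group
            _ = h * t * h⁻¹ * y * h * (z ^ k * h⁻¹) := by rw [hk]; group
            _ = h * t * h⁻¹ * y * z ^ k := by rw [hzc.eq]; group
      let π := QuotientGroup.mk' (zpowers z)
      let α := ↥(T.map π)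
      have hact : ∀ (h : H) (c : α), π h * c * (π h)⁻¹ ∈ T.map π := by
        rintro ⟨h, hh⟩ ⟨c, hc⟩
        obtain ⟨t, ht, rfl⟩ := mem_map.1 hc
        exact mem_map.2 ⟨h * t * h⁻¹, hconj h hh t ht, by simp⟩
      letI act : MulAction H α :=
        { smul := fun h c => ⟨π h * c * (π h)⁻¹, hact h c⟩
          one_smul := by
            rintro ⟨c, hc⟩
            apply Subtype.ext
            change π ((1 : H) : P) * c * (π ((1 : H) : P))⁻¹ = c
            simp
          mul_smul := by
            rintro a b ⟨c, hc⟩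
            apply Subtype.ext
            change π ((a * b : H) : P) * c * (π ((a * b : H) : P))⁻¹ =
              π a * (π b * c * (π b)⁻¹) * (π a)⁻¹
            rw [Subgroup.coe_mul, map_mul]
            group }
      have hHp : IsPGroup p H := hP.to_subgroup H
      have hαp : IsPGroup p α := (hP.to_quotient (zpowers z)).to_subgroup _
      have hnt : Nontrivial α := by
        refine ⟨⟨π t₀, mem_map.2 ⟨t₀, ht₀, rfl⟩⟩, 1, ?_⟩
        intro heq
        have : π t₀ = 1 := congrArg Subtype.val heq
        exact ht₀z ((QuotientGroup.eq_one_iff t₀).1 this)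
      have hdvd : p ∣ Nat.card α := by
        rcases hαp.card_eq_or_dvd with h | h
        · exact absurd h (ne_of_gt Finite.one_lt_card)
        · exact h
      have hone : (1 : α) ∈ MulAction.fixedPoints H α := by
        intro h
        apply Subtype.ext
        change π (h : P) * (1 : P ⧸ zpowers z) * (π (h : P))⁻¹ = 1
        simp
      obtain ⟨⟨b, hb⟩, hbfix, hb1⟩ :=
        hHp.exists_fixed_point_of_prime_dvd_card_of_fixed_point α hdvd hone
      obtain ⟨t, ht, rfl⟩ := mem_map.1 hb
      refine ⟨t, ⟨hnc.le ht.1, ht.2.1, ?_⟩, ?_⟩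
      · intro y hy
        have h1 := congrArg Subtype.val (hbfix ⟨y, hy⟩)
        change π y * π t * (π y)⁻¹ = π t at h1
        have h2 : π (t⁻¹ * (y * t * y⁻¹)) = 1 := by
          rw [map_mul, map_inv, map_mul, map_mul, map_inv, h1]
          simp
        have h3 := (QuotientGroup.eq_one_iff _).1 h2
        obtain ⟨k, hk⟩ := (Submonoid.mem_powers_iff _ _).1 ((mem_powers_iff_mem_zpowers).2 h3)
        refine ⟨k, ?_⟩
        have hzc : Commute (z ^ k) y :=
          (show Commute z y from (mem_center_iff.1 hz y).symm).pow_left k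
        calc y * t = t * (t⁻¹ * (y * t * y⁻¹)) * y := by group
          _ = t * (z ^ k * y) := by rw [← hk]; group
          _ = t * y * z ^ k := by rw [hzc.eq]; group
      · intro htz
        apply hb1
        apply Subtype.ext
        change (1 : P ⧸ zpowers z) = π t
        exact ((QuotientGroup.eq_one_iff t).2 htz).symm
    exact absurd (hKmax hHS hnc.le) (not_le_of_gt hnc)
  subst hK
  obtain ⟨_, t, ⟨_, ht1, ht2⟩, ht3⟩ := hKS
  exact ⟨t, ht3, ht1, fun y => ht2 y (mem_top y)⟩

end Pool.Agent.helper95.QL
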