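import Pool.Agent.helper95.QL.Nil
import Pool.Agent.helper95.QL.Chains

/-!
# Groups with a nilpotent normal `p'`-subgroup and a normal Sylow `p`-subgroup above it
-/

namespace Pool.Agent.helper95.QL

open Finset

section Act

variable {G : Type*} [Group G] (N : Subgroup G) [N.Normal]

/-- the conjugation action on the abelianisation of a normal subgroup -/
def abAct : G →* AddMonoid.End (Additive (Abelianization N)) where
  toFun g := MonoidHom.toAdditive (Abelianization.map (MulAut.conjNormal g : N ≃* N).toMonoidHom)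
  map_one' := by
    refine AddMonoidHom.ext fun x => ?_
    induction x using Additive.rec with
    | ofMul x =>
      induction x using QuotientGroup.induction_on with
      | H n =>
        change Additive.ofMul (Abelianization.of ((MulAut.conjNormal (1 : G) : N ≃* N) n)) =
          Additive.ofMul (Abelianization.of n)
        rw [map_one]
        rfl
  map_mul' a b := by
    refine AddMonoidHom.ext fun x => ?_
    induction x using Additive.rec with
    | ofMul x =>
      induction x using QuotientGroup.induction_on with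
      | H n =>
        change Additive.ofMul (Abelianization.of ((MulAut.conjNormal (a * b) : N ≃* N) n)) =
          Additive.ofMul (Abelianization.of ((MulAut.conjNormal a : N ≃* N)
            ((MulAut.conjNormal b : N ≃* N) n)))
        rw [map_mul]
        rfl

theorem abAct_of (g : G) (n : N) : abAct N g (Additive.ofMul (Abelianization.of n)) =
    Additive.ofMul (Abelianization.of ((MulAut.conjNormal g : N ≃* N) n)) := rfl

/-- elements of `N` act trivially on the abelianisation -/
theorem abAct_self (g : N) (v : Additive (Abelianization N)) : abAct N (g : G) v = v := by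
  induction v using Additive.rec with
  | ofMul x =>
    induction x using QuotientGroup.induction_on with
    | H n =>
      change abAct N (g : G) (Additive.ofMul (Abelianization.of n)) =
        Additive.ofMul (Abelianization.of n)
      rw [abAct_of]
      have h1 : (MulAut.conjNormal (g : G) : N ≃* N) n = g * n * g⁻¹ := by
        apply Subtype.ext
        rw [MulAut.conjNormal_apply]
        rfl
      have h2 : Abelianization.of (g * n * g⁻¹) = Abelianization.of n := by
        rw [_root_.map_mul, _root_.map_mul, _root_.map_inv, mul_comm (Abelianization.of g),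
          mul_assoc, mul_inv_cancel, mul_one]
      rw [h1]
      exact congrArg Additive.ofMul h2

end Act

section Sylow

variable {G : Type*} [Group G] [Finite G] {p : ℕ} [Fact p.Prime] (N : Subgroup G) [N.Normal]
  (P : Sylow p G) (hNP : (N ⊔ (P : Subgroup G)).Normal)

include hNP in
/-- `p`-elements are conjugate into `P` by elements of `N` -/
theorem conj_into (Q : Subgroup G) (hQ : IsPGroup p Q) :
    ∃ n ∈ N, ∀ e ∈ Q, n⁻¹ * e * n ∈ P := by
  obtain ⟨R, hR⟩ := hQ.exists_le_sylow
  obtain ⟨g, hg⟩ := MulAction.exists_smul_eq G P R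
  have h1 := Sylow.normalizer_sup_eq_top' (N := N ⊔ (P : Subgroup G)) P le_sup_right
  have h2 : g⁻¹ ∈ Subgroup.normalizer ((P : Subgroup G) : Set G) ⊔ (N ⊔ (P : Subgroup G)) :=
    h1 ▸ Subgroup.mem_top _
  obtain ⟨k, hk, h, hh, hkh⟩ := Subgroup.mem_sup_of_normal_right.1 h2
  obtain ⟨n, hn, q, hq, hnq⟩ := Subgroup.mem_sup_of_normal_left.1 ((N ⊔ (P : Subgroup G)).inv_mem hh)
  refine ⟨n, hn, fun e he => ?_⟩
  have h3 : e ∈ (g • P : Sylow p G) := hg ▸ hR he
  have h4 : g⁻¹ * e * g ∈ (P : Subgroup G) := by
    have h5 : e ∈ ((g • P : Sylow p G) : Subgroup G) := h3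
    rw [Sylow.coe_subgroup_smul, Subgroup.mem_pointwise_smul_iff_inv_smul_mem] at h5
    simpa [MulAut.smul_def] using h5
  have hg' : g = n * q * k⁻¹ := by
    rw [hnq, ← mul_inv_rev, hkh, inv_inv]
  have h5 : k⁻¹ * (g⁻¹ * e * g) * k ∈ (P : Subgroup G) := by
    have h6 := (Subgroup.mem_normalizer_iff.1 ((Subgroup.normalizer _).inv_mem hk)
      (g⁻¹ * e * g)).1 h4
    simpa using h6
  have h6 : n⁻¹ * e * n = q * (k⁻¹ * (g⁻¹ * e * g) * k) * q⁻¹ := by
    rw [hg']; group
  change n⁻¹ * e * n ∈ (P : Subgroup G)
  rw [h6]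
  exact (P : Subgroup G).mul_mem ((P : Subgroup G).mul_mem hq h5) ((P : Subgroup G).inv_mem hq)

include hNP in
theorem faithful_on_N (hO : ∀ Q : Subgroup G, Q.Normal → IsPGroup p Q → Q = ⊥) (d : G) (hd : d ∈ P)
    (hdN : ∀ n ∈ N, n * d = d * n) : d = 1 := by
  let T : Subgroup G := (P : Subgroup G) ⊓ Subgroup.centralizer (N : Set G)
  have hT : T.Normal := by
    constructor
    intro t ht g
    have h1 : IsPGroup p (Subgroup.zpowers (g * t * g⁻¹)) := by
      have h2 : IsPGroup p (Subgroup.zpowers t) :=
        P.isPGroup'.to_le ((Subgroup.zpowers_le).2 ht.1)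
      have h3 := h2.map (MulAut.conj g).toMonoidHom
      have h4 : (Subgroup.zpowers t).map (MulAut.conj g).toMonoidHom =
          Subgroup.zpowers (g * t * g⁻¹) := by
        rw [MonoidHom.map_zpowers]
        rfl
      rwa [h4] at h3
    obtain ⟨n, hn, hn2⟩ := conj_into N P hNP _ h1
    have hc : g * t * g⁻¹ ∈ Subgroup.centralizer (N : Set G) := by
      rw [Subgroup.mem_centralizer_iff]
      intro m hm
      have h5 := Subgroup.mem_centralizer_iff.1 ht.2 (g⁻¹ * m * g) (by
        have := (inferInstance : N.Normal).conj_mem m hm g⁻¹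
        simpa using this)
      calc m * (g * t * g⁻¹) = g * (g⁻¹ * m * g * t) * g⁻¹ := by group
        _ = g * t * g⁻¹ * m := by rw [h5]; group
    refine Subgroup.mem_inf.2 ⟨?_, hc⟩
    have h6 := hn2 _ (Subgroup.mem_zpowers _)
    have h7 := Subgroup.mem_centralizer_iff.1 hc n hn
    have h8 : n⁻¹ * (g * t * g⁻¹) * n = g * t * g⁻¹ := by
      rw [mul_assoc, ← h7]; group
    rwa [h8] at h6
  have hTp : IsPGroup p T := P.isPGroup'.to_le inf_le_left
  have h1 := hO T hT hTp
  have h2 : d ∈ T := Subgroup.mem_inf.2 ⟨hd, Subgroup.mem_centralizer_iff.2 hdN⟩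
  rw [h1] at h2
  exact Subgroup.mem_bot.1 h2

omit P in
theorem not_dvd_card_N [Group.IsNilpotent N]
    (hO : ∀ Q : Subgroup G, Q.Normal → IsPGroup p Q → Q = ⊥) : ¬ p ∣ Nat.card N := by
  intro h
  obtain ⟨S⟩ : Nonempty (Sylow p N) := inferInstance
  have hS : (S : Subgroup N).Normal := inferInstance
  have hSc : (S : Subgroup N).Characteristic := S.characteristic_of_normal hS
  have h1 : ((S : Subgroup N).map N.subtype).Normal := inferInstance
  have h2 := hO _ h1 (S.isPGroup'.map N.subtype)
  have h3 : (S : Subgroup N) = ⊥ := by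
    rw [Subgroup.map_eq_bot_iff_of_injective _ N.subtype_injective] at h2
    exact h2
  have h4 := S.dvd_card_of_dvd_card h
  rw [h3, Subgroup.card_bot] at h4
  exact (Fact.out : p.Prime).one_lt.ne' (Nat.dvd_one.1 h4)

end Sylow

end Pool.Agent.helper95.QL
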