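import Pool.Agent.helper95.QL.Main

/-!
# Groups with a nilpotent normal `p'`-subgroup and a normal Sylow `p`-subgroup above it: faithfulness
-/

namespace Pool.Agent.helper95.QL

open Finset

section Coset

variable {G : Type*} [Group G] [Finite G] {p : ℕ} [Fact p.Prime] (N : Subgroup G) [N.Normal]

theorem fixed_in_coset (hpN : ¬ p ∣ Nat.card N) (d : G) (hd : IsPGroup p (Subgroup.zpowers d))
    (x : N) (hx : abAct N d (Additive.ofMul (Abelianization.of x)) =
      Additive.ofMul (Abelianization.of x)) :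
    ∃ c : N, Abelianization.of c = Abelianization.of x ∧ (MulAut.conjNormal d : N ≃* N) c = c := by
  have hfix : ∀ g ∈ Subgroup.zpowers d, abAct N g (Additive.ofMul (Abelianization.of x)) =
      Additive.ofMul (Abelianization.of x) := by
    let T : Subgroup G :=
      { carrier := {g | abAct N g (Additive.ofMul (Abelianization.of x)) =
          Additive.ofMul (Abelianization.of x)}
        one_mem' := act_one (abAct N) _
        mul_mem' := by
          intro a b ha hb
          change abAct N (a * b) _ = _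
          have ha' : abAct N a (Additive.ofMul (Abelianization.of x)) =
            Additive.ofMul (Abelianization.of x) := ha
          have hb' : abAct N b (Additive.ofMul (Abelianization.of x)) =
            Additive.ofMul (Abelianization.of x) := hb
          rw [act_mul, hb', ha']
        inv_mem' := by
          intro a ha
          change abAct N a⁻¹ _ = _
          have ha' : abAct N a (Additive.ofMul (Abelianization.of x)) =
            Additive.ofMul (Abelianization.of x) := ha
          apply act_inj (abAct N) a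
          rw [act_act_inv, ha'] }
    have h1 : Subgroup.zpowers d ≤ T := Subgroup.zpowers_le.2 hx
    exact fun g hg => h1 hg
  let β := {c : N // Abelianization.of c = Abelianization.of x}
  have hst : ∀ (g : Subgroup.zpowers d) (c : β),
      Abelianization.of ((MulAut.conjNormal (g : G) : N ≃* N) c) = Abelianization.of x := by
    rintro ⟨g, hg⟩ ⟨c, hc⟩
    have h1 := abAct_of N g c
    rw [hc, hfix g hg] at h1
    exact (Additive.ofMul.injective h1).symm
  let act : MulAction (Subgroup.zpowers d) β :=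
    { smul := fun g c => ⟨(MulAut.conjNormal (g : G) : N ≃* N) c, hst g c⟩
      one_smul := by
        rintro ⟨c, hc⟩
        apply Subtype.ext
        change (MulAut.conjNormal (1 : G) : N ≃* N) c = c
        rw [map_one]; rfl
      mul_smul := by
        rintro ⟨a, ha⟩ ⟨b, hb⟩ ⟨c, hc⟩
        apply Subtype.ext
        change (MulAut.conjNormal (a * b) : N ≃* N) c =
          (MulAut.conjNormal a : N ≃* N) ((MulAut.conjNormal b : N ≃* N) c)
        rw [map_mul]; rfl }
  have hcard : Nat.card β = Nat.card (commutator N) := by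
    have hmem : ∀ c : N, Abelianization.of c = Abelianization.of x ↔ x⁻¹ * c ∈ commutator N := by
      intro c
      rw [← Abelianization.ker_of, MonoidHom.mem_ker, map_mul, map_inv, inv_mul_eq_one]
      exact eq_comm
    refine Nat.card_congr ⟨fun c => ⟨x⁻¹ * c.1, (hmem _).1 c.2⟩,
      fun c => ⟨x * c.1, (hmem _).2 (by simp)⟩, ?_, ?_⟩
    · rintro ⟨c, hc⟩; simp
    · rintro ⟨c, hc⟩; simp
  obtain ⟨⟨c, hc⟩, hcf⟩ := hd.nonempty_fixed_point_of_prime_not_dvd_card β
    (by
      rw [hcard]
      exact fun h => hpN (h.trans (commutator N).card_subgroup_dvd_card))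
  exact ⟨c, hc, congrArg Subtype.val (hcf ⟨d, Subgroup.mem_zpowers d⟩)⟩

omit [Finite G] in
theorem mem_sylow_of_pow {q : ℕ} [Fact q.Prime] {N : Type*} [Group N] [Finite N]
    [Group.IsNilpotent N] (S : Sylow q N)
    (y : N) (a : ℕ) (h : y ^ q ^ a = 1) : y ∈ (S : Subgroup N) := by
  have h1 : IsPGroup q (Subgroup.zpowers y) := by
    rintro ⟨z, hz⟩
    obtain ⟨k, rfl⟩ := Subgroup.mem_zpowers_iff.1 hz
    refine ⟨a, Subtype.ext ?_⟩
    change (y ^ k) ^ q ^ a = 1
    rw [← zpow_natCast, ← zpow_mul, mul_comm, zpow_mul, zpow_natCast, h, one_zpow]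
  obtain ⟨R, hR⟩ := h1.exists_le_sylow
  have hS : (S : Subgroup N).Normal := inferInstance
  have h2 : R = S := by
    have := Sylow.unique_of_normal S hS
    exact Subsingleton.elim _ _
  rw [← h2]
  exact hR (Subgroup.mem_zpowers y)

/-- faithfulness on the part of odd order of the abelianisation -/
theorem commute_of_trivial {q : ℕ} [Fact q.Prime] [Group.IsNilpotent N] (hpN : ¬ p ∣ Nat.card N)
    (S : Sylow q N)
    (a m k k' : ℕ) (hk : ∀ n : N, (n ^ k) ^ m = 1) (hk' : ∀ n : N, (n ^ k') ^ q ^ a = 1)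
    (hkk : ∀ n : N, n ^ k * n ^ k' = n)
    (d : G) (hd : IsPGroup p (Subgroup.zpowers d))
    (hdS : ∀ s ∈ (S : Subgroup N), (MulAut.conjNormal d : N ≃* N) s = s)
    (htriv : ∀ v : Additive (Abelianization N), m • v = 0 → abAct N d v = v) :
    ∀ n : N, (MulAut.conjNormal d : N ≃* N) n = n := by
  let H : Subgroup N :=
    { carrier := {n | (MulAut.conjNormal d : N ≃* N) n = n}
      one_mem' := map_one _
      mul_mem' := by
        intro a b ha hb
        change (MulAut.conjNormal d : N ≃* N) (a * b) = a * b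
        rw [map_mul, show (MulAut.conjNormal d : N ≃* N) a = a from ha,
          show (MulAut.conjNormal d : N ≃* N) b = b from hb]
      inv_mem' := by
        intro a ha
        change (MulAut.conjNormal d : N ≃* N) a⁻¹ = a⁻¹
        rw [map_inv, show (MulAut.conjNormal d : N ≃* N) a = a from ha] }
  have hH : H = ⊤ := by
    apply eq_top_of_sup_commutator
    intro n
    have hv : abAct N d (Additive.ofMul (Abelianization.of (n ^ k))) =
        Additive.ofMul (Abelianization.of (n ^ k)) := by
      apply htriv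
      rw [← ofMul_pow, ← map_pow, hk, map_one]
      rfl
    obtain ⟨c, hc1, hc2⟩ := fixed_in_coset N hpN d hd _ hv
    refine ⟨c * n ^ k', H.mul_mem hc2 (hdS _ (mem_sylow_of_pow S _ a (hk' n))), ?_⟩
    rw [← Abelianization.ker_of, MonoidHom.mem_ker, map_mul, map_inv, inv_mul_eq_one, map_mul, hc1,
      ← map_mul, hkk]
  intro n
  have : n ∈ H := hH ▸ Subgroup.mem_top n
  exact this

end Coset

/-- the arithmetic input -/
theorem exists_split (N : Type*) [Group N] [Finite N] (q : ℕ) [hq : Fact q.Prime] :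
    ∃ a m k k' : ℕ,
    Nat.card N = q ^ a * m ∧ ¬ q ∣ m ∧ k ≡ 1 [MOD m] ∧ (∀ n : N, (n ^ k) ^ m = 1) ∧
      (∀ n : N, (n ^ k') ^ q ^ a = 1) ∧ (∀ n : N, n ^ k * n ^ k' = n) := by
  obtain ⟨a, m, hm, h⟩ := Nat.exists_eq_pow_mul_and_not_dvd (n := Nat.card N) Nat.card_pos.ne' q
    hq.out.one_lt.ne'
  have hc : Nat.Coprime (q ^ a) m := Nat.Coprime.pow_left _ ((hq.out.coprime_iff_not_dvd).2 hm)
  obtain ⟨k, hk1, hk2⟩ := Nat.chineseRemainder hc 0 1
  obtain ⟨k', hk1', hk2'⟩ := Nat.chineseRemainder hc 1 0
  have hcard : ∀ (n : N) (j : ℕ), Nat.card N ∣ j → n ^ j = 1 := by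
    intro n j hj
    obtain ⟨i, rfl⟩ := hj
    rw [pow_mul, pow_card_eq_one', one_pow]
  refine ⟨a, m, k, k', h, hm, hk2, fun n => ?_, fun n => ?_, fun n => ?_⟩
  · rw [← pow_mul]
    apply hcard
    rw [h]
    exact Nat.mul_dvd_mul ((Nat.modEq_zero_iff_dvd).1 hk1) (dvd_refl m)
  · rw [← pow_mul]
    apply hcard
    rw [h, mul_comm]
    exact Nat.mul_dvd_mul ((Nat.modEq_zero_iff_dvd).1 hk2') (dvd_refl _)
  · rw [← pow_add]
    have h1 : k + k' ≡ 1 [MOD q ^ a] := by simpa using hk1.add hk1'
    have h2 : k + k' ≡ 1 [MOD m] := by simpa using hk2.add hk2'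
    have h3 : k + k' ≡ 1 [MOD Nat.card N] := by
      rw [h]
      exact (Nat.modEq_and_modEq_iff_modEq_mul hc).1 ⟨h1, h2⟩
    have h4 : orderOf n ∣ Nat.card N := orderOf_dvd_natCard n
    have h5 : n ^ (k + k') = n ^ 1 := pow_eq_pow_iff_modEq.2 (h3.of_dvd h4)
    rw [h5, pow_one]

end Pool.Agent.helper95.QL
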