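import Pool.Agent.helper95.QL.Main2

/-!
# The Lefschetz form of Quillen's conjecture for a class of groups
-/

namespace Pool.Agent.helper95.QL

open Finset

/-- conjugation of subgroups -/
def conjAct {G : Type*} [Group G] {S : Type*} [Group S] (f : S →* G) : MulAction S (Subgroup G) where
  smul σ E := E.map (MulAut.conj (f σ)).toMonoidHom
  one_smul E := by
    change E.map (MulAut.conj (f 1)).toMonoidHom = E
    rw [map_one, map_one]
    exact E.map_id
  mul_smul σ τ E := by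
    change E.map (MulAut.conj (f (σ * τ))).toMonoidHom =
      (E.map (MulAut.conj (f τ)).toMonoidHom).map (MulAut.conj (f σ)).toMonoidHom
    rw [map_mul, map_mul, Subgroup.map_map]
    rfl

theorem mem_conj {G : Type*} [Group G] (E : Subgroup G) (g y : G) :
    y ∈ E.map (MulAut.conj g).toMonoidHom ↔ g⁻¹ * y * g ∈ E := by
  rw [Subgroup.mem_map]
  constructor
  · rintro ⟨z, hz, rfl⟩
    have : g⁻¹ * (MulAut.conj g).toMonoidHom z * g = z := by
      change g⁻¹ * (g * z * g⁻¹) * g = z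
      group
    rwa [this]
  · intro h
    refine ⟨_, h, ?_⟩
    change g * (g⁻¹ * y * g) * g⁻¹ = y
    group

/-- the property of the subgroups in the sum -/
def Adm {G : Type*} [Group G] (p : ℕ) (g : G) (E : Subgroup G) : Prop :=
  E ≠ ⊥ ∧ (∀ x ∈ E, ∀ y ∈ E, x * y = y * x) ∧ (∀ x ∈ E, x ^ p = 1) ∧
    (∀ x : G, x ∈ E ↔ g * x * g⁻¹ ∈ E)

theorem adm_conj {G : Type*} [Group G] (p : ℕ) (g s : G) (hs : g * s = s * g) (E : Subgroup G)
    (hE : Adm p g E) : Adm p g (E.map (MulAut.conj s).toMonoidHom) := by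
  obtain ⟨h1, h2, h3, h4⟩ := hE
  refine ⟨?_, ?_, ?_, ?_⟩
  · intro h
    apply h1
    exact (Subgroup.map_eq_bot_iff_of_injective _ (MulAut.conj s).injective).1 h
  · intro x hx y hy
    rw [mem_conj] at hx hy
    have h5 := h2 _ hx _ hy
    calc x * y = s * ((s⁻¹ * x * s) * (s⁻¹ * y * s)) * s⁻¹ := by group
      _ = s * ((s⁻¹ * y * s) * (s⁻¹ * x * s)) * s⁻¹ := by rw [h5]
      _ = y * x := by group
  · intro x hx
    rw [mem_conj] at hx
    have h5 := h3 _ hx
    have h6 : (s⁻¹ * x * s) ^ p = s⁻¹ * x ^ p * s := by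
      have := conj_pow (a := s⁻¹) (b := x) (i := p)
      simpa using this
    rw [h6] at h5
    have h7 : x ^ p = s * (s⁻¹ * x ^ p * s) * s⁻¹ := by group
    rw [h7, h5]; group
  · intro x
    rw [mem_conj, mem_conj, h4]
    have h5 : g * s⁻¹ = s⁻¹ * g := by
      calc g * s⁻¹ = s⁻¹ * (s * g) * s⁻¹ := by group
        _ = s⁻¹ * (g * s) * s⁻¹ := by rw [hs]
        _ = s⁻¹ * g := by group
    have h6 : s * g⁻¹ = g⁻¹ * s := by
      calc s * g⁻¹ = g⁻¹ * (g * s) * g⁻¹ := by group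
        _ = g⁻¹ * (s * g) * g⁻¹ := by rw [hs]
        _ = g⁻¹ * s := by group
    have h7 : g * (s⁻¹ * x * s) * g⁻¹ = s⁻¹ * (g * x * g⁻¹) * s := by
      calc g * (s⁻¹ * x * s) * g⁻¹ = (g * s⁻¹) * x * (s * g⁻¹) := by group
        _ = (s⁻¹ * g) * x * (g⁻¹ * s) := by rw [h5, h6]
        _ = s⁻¹ * (g * x * g⁻¹) * s := by group
    rw [h7]


end Pool.Agent.helper95.QL
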