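import Pool.Agent.helper95.QL.Main3
import Pool.Agent.helper95.QL.ChainsQ

/-!
# The Lefschetz form of Quillen's conjecture: the general criterion
-/

namespace Pool.Agent.helper95.QL

open Finset

/-- a normal `p`-subgroup lies in every Sylow `p`-subgroup -/
theorem le_sylow_of_normal {C : Type*} [Group C] [Finite C] {p : ℕ} [Fact p.Prime]
    (Q : Subgroup C) [Q.Normal] (hQ : IsPGroup p Q) (P : Sylow p C) : Q ≤ (P : Subgroup C) := by
  obtain ⟨R, hR⟩ := hQ.exists_le_sylow
  obtain ⟨g, rfl⟩ := MulAction.exists_smul_eq C P R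
  intro x hx
  have h1 : g * x * g⁻¹ ∈ ((g • P : Sylow p C) : Subgroup C) :=
    hR ((inferInstance : Q.Normal).conj_mem x hx g)
  rw [Sylow.coe_subgroup_smul, Subgroup.mem_pointwise_smul_iff_inv_smul_mem] at h1
  simpa [MulAut.smul_def, mul_assoc] using h1

/-- a normal subgroup inherits the absence of normal `p`-subgroups -/
theorem no_normal_of_normal {G : Type*} [Group G] [Finite G] {p : ℕ} [Fact p.Prime]
    (C : Subgroup G) [C.Normal] (hO : ∀ Q : Subgroup G, Q.Normal → IsPGroup p Q → Q = ⊥)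
    (Q : Subgroup C) (hQn : Q.Normal) (hQ : IsPGroup p Q) : Q = ⊥ := by
  obtain ⟨P⟩ : Nonempty (Sylow p C) := inferInstance
  have hle : Subgroup.normalClosure ((Q.map C.subtype : Subgroup G) : Set G) ≤
      (P : Subgroup C).map C.subtype := by
    rw [Subgroup.normalClosure, Subgroup.closure_le]
    intro y hy
    obtain ⟨x, hx, hxy⟩ := Group.mem_conjugatesOfSet_iff.1 hy
    obtain ⟨g, hg⟩ := isConj_iff.1 hxy
    obtain ⟨q, hq, hqx⟩ := hx
    let Q' : Subgroup C := Q.map (MulAut.conjNormal g : C ≃* C).toMonoidHom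
    have hQ' : IsPGroup p Q' := hQ.map _
    have hQn' : Q'.Normal := hQn.map _ (MulAut.conjNormal g : C ≃* C).surjective
    have h1 : (MulAut.conjNormal g : C ≃* C) q ∈ Q' := ⟨q, hq, rfl⟩
    have h2 := le_sylow_of_normal Q' hQ' P h1
    refine ⟨_, h2, ?_⟩
    rw [← hg, ← hqx]
    exact MulAut.conjNormal_apply g q
  have h1 : IsPGroup p (Subgroup.normalClosure ((Q.map C.subtype : Subgroup G) : Set G)) :=
    (P.isPGroup'.map C.subtype).to_le hle
  have h2 := hO _ Subgroup.normalClosure_normal h1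
  have h3 : Q.map C.subtype = ⊥ := by
    rw [eq_bot_iff, ← h2]
    exact Subgroup.subset_normalClosure
  exact (Subgroup.map_eq_bot_iff_of_injective _ C.subtype_injective).1 h3

/-- an element of `N` whose centraliser meets the centraliser of the Sylow `q`-subgroup of `N` in a
group without elements of order `p` -/
theorem exists_reg {G : Type*} [Group G] [Finite G] {p : ℕ} (hp : p.Prime) (hp2 : p ≠ 2)
    {q : ℕ} (hq : q.Prime)
    (N : Subgroup G) [N.Normal] [Group.IsNilpotent N]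
    (hqp : q = 2 ∨ Odd (Nat.card N) ∨ ∀ a : ℕ, 2 ^ a ≠ p + 1)
    (P : Sylow p G)
    (hNP : (N ⊔ (P : Subgroup G)).Normal)
    (hO : ∀ Q : Subgroup G, Q.Normal → IsPGroup p Q → Q = ⊥) (S : Sylow q N) :
    ∃ x : N, ∃ m : ℕ, ¬ q ∣ m ∧ x ^ m = 1 ∧
      ∀ E : Subgroup G, IsPGroup p E → (∀ e ∈ E, (x : G) * e = e * x) →
        (∀ s ∈ (S : Subgroup N), ∀ e ∈ E, (s : G) * e = e * (s : G)) → E = ⊥ := by
  have : Fact p.Prime := ⟨hp⟩
  have : Fact q.Prime := ⟨hq⟩
  have hpN : ¬ p ∣ Nat.card N := not_dvd_card_N N hO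
  obtain ⟨a, m, k, k', hcard, hm, hkm, hk, hk', hkk⟩ := exists_split N q
  have hSn : (S : Subgroup N).Normal := inferInstance
  let D : Subgroup G := (P : Subgroup G) ⊓
    Subgroup.centralizer (((S : Subgroup N).map N.subtype : Subgroup G) : Set G)
  have hD : IsPGroup p D := P.isPGroup'.to_le inf_le_left
  let A := Additive (Abelianization N)
  let V : AddSubgroup A := (nsmulAddMonoidHom m : A →+ A).ker
  have hV : ∀ v : A, v ∈ V ↔ m • v = 0 := fun v => Iff.rfl
  let φ0 : D →* AddMonoid.End A := (abAct N).comp D.subtype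
  have hinv : ∀ g, ∀ v ∈ V, φ0 g v ∈ V := by
    intro g v hv
    rw [hV] at hv ⊢
    rw [← map_nsmul, hv, map_zero]
  let φ := restr φ0 V hinv
  have hmN : m ∣ Nat.card N := ⟨q ^ a, by rw [hcard, mul_comm]⟩
  have hVq : ∀ r : ℕ, r.Prime → r ∣ Nat.card V → r ∣ m := by
    intro r hr hrV
    have : Fact r.Prime := ⟨hr⟩
    obtain ⟨v, hv⟩ := exists_prime_addOrderOf_dvd_card' (G := V) r hrV
    rw [← hv]
    apply addOrderOf_dvd_of_nsmul_eq_zero
    exact Subtype.ext (v.2)
  have hodd : Odd (Nat.card V) ∨ NM p := by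
    rcases hqp with h2 | hN | hM
    · left
      rw [← Nat.not_even_iff_odd, even_iff_two_dvd]
      intro h
      apply hm
      rw [h2]
      exact hVq 2 Nat.prime_two h
    · left
      rw [← Nat.not_even_iff_odd, even_iff_two_dvd]
      intro h
      exact (Nat.not_even_iff_odd.2 hN) (even_iff_two_dvd.2
        ((hVq 2 Nat.prime_two h).trans hmN))
    · exact Or.inr (nm_of hp hp2 hM)
  have hpV : ¬ p ∣ Nat.card V := fun h => hpN ((hVq p hp h).trans hmN)
  obtain ⟨⟨v, hvV⟩, hreg⟩ := exists_regular hp2 hodd hpV hD φ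
  -- lift `v`
  obtain ⟨n0, hn0⟩ : ∃ n0 : N, Additive.ofMul (Abelianization.of n0) = v := by
    obtain ⟨n0, hn0⟩ := QuotientGroup.mk_surjective (s := commutator N) (Additive.toMul v)
    exact ⟨n0, congrArg Additive.ofMul hn0⟩
  have hx : Additive.ofMul (Abelianization.of (n0 ^ k)) = v := by
    rw [map_pow, ofMul_pow, hn0]
    have h1 : addOrderOf v ∣ m := addOrderOf_dvd_of_nsmul_eq_zero ((hV v).1 hvV)
    have h2 : k • v = 1 • v := nsmul_eq_nsmul_iff_modEq.2 (hkm.of_dvd h1)
    rw [h2, one_nsmul]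
  refine ⟨n0 ^ k, m, hm, hk n0, ?_⟩
  set x : N := n0 ^ k with hxdef
  intro E hEp hX hS
  obtain ⟨n, hn, hconj⟩ := conj_into N P hNP E hEp
  rw [eq_bot_iff]
  intro e he
  rw [Subgroup.mem_bot]
  have hdP : n⁻¹ * e * n ∈ (P : Subgroup G) := hconj e he
  have hdS : ∀ s ∈ (S : Subgroup N), (s : G) * (n⁻¹ * e * n) = (n⁻¹ * e * n) * (s : G) := by
    intro s hs
    have h5 : (⟨n, hn⟩ : N) * s * (⟨n, hn⟩ : N)⁻¹ ∈ (S : Subgroup N) := hSn.conj_mem s hs _
    have h6 := hS _ h5 e he
    have h7 : n * (s : G) * n⁻¹ * e = e * (n * (s : G) * n⁻¹) := h6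
    calc (s : G) * (n⁻¹ * e * n) = n⁻¹ * (n * (s : G) * n⁻¹ * e) * n := by group
      _ = n⁻¹ * (e * (n * (s : G) * n⁻¹)) * n := by rw [h7]
      _ = (n⁻¹ * e * n) * (s : G) := by group
  set d : G := n⁻¹ * e * n with hd
  have hdD : d ∈ D := by
    refine Subgroup.mem_inf.2 ⟨hdP, Subgroup.mem_centralizer_iff.2 ?_⟩
    rintro _ ⟨s, hs, rfl⟩
    exact hdS s hs
  have hact : abAct N d v = v := by
    have h5 : abAct N n v = v := abAct_self N ⟨n, hn⟩ v
    have h6 : abAct N n⁻¹ v = v := abAct_self N ⟨n, hn⟩⁻¹ v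
    have h7 : abAct N e v = v := by
      rw [← hx, abAct_of]
      have h8 : (MulAut.conjNormal e : N ≃* N) x = x := by
        apply Subtype.ext
        rw [MulAut.conjNormal_apply, ← hX e he]
        group
      rw [h8]
    rw [hd, act_mul, act_mul, h5, h7, h6]
  have htriv : φ ⟨d, hdD⟩ = 1 := by
    apply hreg
    exact Subtype.ext hact
  have hall := commute_of_trivial N hpN S a m k k' hk hk' hkk d
    (P.isPGroup'.to_le ((Subgroup.zpowers_le).2 hdP))
    (by
      intro s hs
      apply Subtype.ext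
      rw [MulAut.conjNormal_apply, ← hdS s hs]
      group)
    (by
      intro w hw
      have h5 := DFunLike.congr_fun htriv (⟨w, hw⟩ : V)
      exact congrArg Subtype.val h5)
  have hd1 : d = 1 := by
    refine faithful_on_N N P hNP hO d hdP (fun y hy => ?_)
    have h5 := congrArg Subtype.val (hall ⟨y, hy⟩)
    rw [MulAut.conjNormal_apply] at h5
    have h6 : d * y * d⁻¹ = y := h5
    calc y * d = d * y * d⁻¹ * d := by rw [h6]
      _ = d * y := by group
  calc e = n * d * n⁻¹ := by rw [hd]; group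
    _ = 1 := by rw [hd1]; group

/-- the counting step: an element commuting with the Sylow `q`-subgroup of `N` such that the two
together centralise no nontrivial `p`-subgroup -/
theorem sum_ne_zero_of_reg {G : Type*} [Group G] [Finite G] {p : ℕ} (hp : p.Prime) {q : ℕ}
    (hq : q.Prime)
    (N : Subgroup G) [N.Normal] (hpN : ¬ p ∣ Nat.card N) (S : Sylow q N) (x : G) (hxN : x ∈ N)
    (hxS : ∀ s ∈ (S : Subgroup N), x * (s : G) = (s : G) * x)
    (h : ∀ E : Subgroup G, IsPGroup p E → (∀ e ∈ E, x * e = e * x) →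
        (∀ s ∈ (S : Subgroup N), ∀ e ∈ E, (s : G) * e = e * (s : G)) → E = ⊥) :
    (∑ᶠ (s : Finset (Subgroup G))
        (_ : IsChain (· ≤ ·) (s : Set (Subgroup G)) ∧ ∀ E ∈ s, Adm p x E),
        ((-1 : ℤ) ^ (s.card + 1))) ≠ 0 := by
  have : Fact p.Prime := ⟨hp⟩
  have : Fact q.Prime := ⟨hq⟩
  letI act := conjAct (G := G) (N.subtype.comp (S : Subgroup N).subtype)
  suffices hmain : ∀ par : ℕ → Prop,
      (par 0 → Nat.card {s : Finset (Subgroup G) // (IsChain (· ≤ ·) (s : Set (Subgroup G)) ∧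
        ∀ a ∈ s, Adm p x a) ∧ par s.card} ≡ 1 [MOD q]) ∧
      (¬ par 0 → Nat.card {s : Finset (Subgroup G) // (IsChain (· ≤ ·) (s : Set (Subgroup G)) ∧
        ∀ a ∈ s, Adm p x a) ∧ par s.card} ≡ 0 [MOD q]) from
    sum_ne_zero_of_mod hq _ ((hmain (fun k => Even k)).1 Even.zero)
      ((hmain (fun k => ¬ Even k)).2 (by simp))
  refine card_chains_mod (q := q) (L := Subgroup G) (S := (S : Subgroup N)) S.isPGroup' ?_
    (Adm p x) ?_ ?_
  · intro σ E F hEF
    exact Subgroup.map_mono hEF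
  · intro σ E hE
    exact adm_conj p x _ (hxS σ.1 σ.2) E hE
  · intro E hE
    by_contra hcon
    push Not at hcon
    obtain ⟨h1, h2, h3, h4⟩ := hE
    apply h1
    have hEp : IsPGroup p E := by
      rintro ⟨e, he⟩
      refine ⟨1, Subtype.ext ?_⟩
      rw [pow_one]
      exact h3 e he
    have hEN : ∀ e ∈ E, e ∈ N → e = 1 := by
      intro e he heN
      have h5 : orderOf e ∣ p := orderOf_dvd_of_pow_eq_one (h3 e he)
      rcases (Nat.dvd_prime hp).1 h5 with h | h
      · exact orderOf_eq_one_iff.1 h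
      · exfalso
        apply hpN
        rw [← h]
        exact Subgroup.orderOf_dvd_natCard N heN
    have hstab : ∀ s ∈ (S : Subgroup N), ∀ e ∈ E, (s : G) * e * (s : G)⁻¹ ∈ E := by
      intro s hs e he
      have h5 := hcon ⟨s, hs⟩
      have h6 : E.map (MulAut.conj (s : G)).toMonoidHom = E := h5
      rw [← h6, mem_conj]
      have h7 : (s : G)⁻¹ * ((s : G) * e * (s : G)⁻¹) * (s : G) = e := by group
      rwa [h7]
    have hcomm : ∀ y ∈ N, (∀ e ∈ E, y * e * y⁻¹ ∈ E) → ∀ e ∈ E, y * e = e * y := by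
      intro y hy hyE e he
      have h5 : y * e * y⁻¹ * e⁻¹ ∈ E := E.mul_mem (hyE e he) (E.inv_mem he)
      have h6 : y * e * y⁻¹ * e⁻¹ ∈ N := by
        have h7 : y * e * y⁻¹ * e⁻¹ = y * (e * y⁻¹ * e⁻¹) := by group
        rw [h7]
        exact N.mul_mem hy ((inferInstance : N.Normal).conj_mem _ (N.inv_mem hy) e)
      have h7 := hEN _ h5 h6
      calc y * e = (y * e * y⁻¹ * e⁻¹) * (e * y) := by group
        _ = e * y := by rw [h7, one_mul]
    exact h E hEp (hcomm x hxN (fun e he => (h4 e).1 he))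
      (fun s hs => hcomm s s.2 (hstab s hs))

/-- `q'`-elements of a nilpotent group commute with the Sylow `q`-subgroup -/
theorem commute_sylow {q : ℕ} (hq : q.Prime) {N : Type*} [Group N] [Finite N]
    [Group.IsNilpotent N] (S : Sylow q N)
    (x : N) (m : ℕ) (hm : ¬ q ∣ m) (hx : x ^ m = 1) (s : N) (hs : s ∈ (S : Subgroup N)) :
    x * s = s * x := by
  have : Fact q.Prime := ⟨hq⟩
  obtain ⟨i, hi⟩ := (IsPGroup.iff_orderOf.1 S.isPGroup') ⟨s, hs⟩
  have h1 : s ^ q ^ i = 1 := by
    have := pow_orderOf_eq_one (⟨s, hs⟩ : (S : Subgroup N))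
    rw [hi] at this
    exact congrArg Subtype.val this
  exact commute_of_coprime_pow x s m (q ^ i) hx h1
    (Nat.Coprime.pow_right _ ((hq.coprime_iff_not_dvd).2 hm).symm)

/-- the general criterion -/
theorem main_centralizer {G : Type*} [Group G] [Finite G] {p : ℕ} (hp : p.Prime) (hp2 : p ≠ 2)
    (hO : ∀ Q : Subgroup G, Q.Normal → IsPGroup p Q → Q = ⊥)
    (N : Subgroup G) [N.Normal] [Group.IsNilpotent N] {q : ℕ} (hq : q.Prime)
    (hqp : q = 2 ∨ Odd (Nat.card N) ∨ ∀ a : ℕ, 2 ^ a ≠ p + 1)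
    (S : Sylow q N) (C : Subgroup G)
    (hC : C = Subgroup.centralizer (((S : Subgroup N).map N.subtype : Subgroup G) : Set G))
    (P : Sylow p C) (hNP : (N.subgroupOf C ⊔ (P : Subgroup C)).Normal) :
    ∃ g ∈ N, (∑ᶠ (s : Finset (Subgroup G))
        (_ : IsChain (· ≤ ·) (s : Set (Subgroup G)) ∧ ∀ E ∈ s, Adm p g E),
        ((-1 : ℤ) ^ (s.card + 1))) ≠ 0 := by
  have : Fact p.Prime := ⟨hp⟩
  have : Fact q.Prime := ⟨hq⟩
  have hpN : ¬ p ∣ Nat.card N := not_dvd_card_N N hO
  have hSn : (S : Subgroup N).Normal := inferInstance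
  have hSc : (S : Subgroup N).Characteristic := S.characteristic_of_normal hSn
  have hSG : ((S : Subgroup N).map N.subtype).Normal := inferInstance
  have hCn : C.Normal := by
    rw [hC]
    exact Subgroup.normal_centralizer
  have hNil : Group.IsNilpotent (N.subgroupOf C) := by
    let f : N.subgroupOf C →* N :=
      (C.subtype.comp (N.subgroupOf C).subtype).codRestrict N (fun y => y.2)
    have hf : Function.Injective f := by
      intro a b hab
      apply Subtype.ext
      apply Subtype.ext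
      exact congrArg (fun t : N => (t : G)) hab
    refine Subgroup.isNilpotent_of_ker_le_center f ?_
    rw [(MonoidHom.ker_eq_bot_iff f).2 hf]
    exact bot_le
  have hqp' : q = 2 ∨ Odd (Nat.card (N.subgroupOf C)) ∨ ∀ a : ℕ, 2 ^ a ≠ p + 1 := by
    refine hqp.imp_right (Or.imp_left fun h => h.of_dvd_nat ?_)
    have h1 : Nat.card (N.subgroupOf C) = Nat.card (N ⊓ C : Subgroup G) := by
      rw [← Subgroup.subgroupOf_map_subtype, Subgroup.card_map_of_injective C.subtype_injective]
    rw [h1]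
    exact Subgroup.card_dvd_of_le inf_le_left
  obtain ⟨S'⟩ : Nonempty (Sylow q (N.subgroupOf C)) := inferInstance
  obtain ⟨x, m, hm, hxm, hE⟩ := exists_reg hp hp2 hq (N.subgroupOf C) hqp' P hNP
    (no_normal_of_normal C hO) S'
  have hxN : ((x : C) : G) ∈ N := x.2
  have hxC : ((x : C) : G) ∈ C := (x : C).2
  refine ⟨((x : C) : G), hxN, ?_⟩
  refine sum_ne_zero_of_reg hp hq N hpN S _ hxN ?_ ?_
  · intro s hs
    have h1 := hC.le hxC
    exact (Subgroup.mem_centralizer_iff.1 h1 (s : G) ⟨s, hs, rfl⟩).symm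
  · intro E hEp hEx hES
    have hEC : E ≤ C := by
      intro e he
      rw [hC, Subgroup.mem_centralizer_iff]
      rintro _ ⟨s, hs, rfl⟩
      exact hES s hs e he
    have h1 : E.subgroupOf C = ⊥ := by
      apply hE
      · exact hEp.comap_of_injective C.subtype C.subtype_injective
      · intro e he
        exact Subtype.ext (hEx e he)
      · intro s hs e he
        -- `s` has `q`-power order, so it lies in `S`
        obtain ⟨i, hi⟩ := (IsPGroup.iff_orderOf.1 S'.isPGroup') ⟨s, hs⟩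
        have h2 : s ^ q ^ i = 1 := by
          have := pow_orderOf_eq_one (⟨s, hs⟩ : (S' : Subgroup (N.subgroupOf C)))
          rw [hi] at this
          exact congrArg Subtype.val this
        have h3 : (⟨((s : C) : G), s.2⟩ : N) ^ q ^ i = 1 := by
          apply Subtype.ext
          have h4 := congrArg (fun t : N.subgroupOf C => ((t : C) : G)) h2
          exact h4
        have h4 := mem_sylow_of_pow S _ i h3
        exact Subtype.ext (hES _ h4 e he)
    rw [eq_bot_iff]
    intro e he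
    have h2 : (⟨e, hEC he⟩ : C) ∈ E.subgroupOf C := he
    rw [h1, Subgroup.mem_bot] at h2
    exact Subgroup.mem_bot.2 (congrArg Subtype.val h2)

/-- the case of a normal Sylow `p`-subgroup modulo `N` -/
theorem main_closed {G : Type*} [Group G] [Finite G] {p : ℕ} (hp : p.Prime) (hp2 : p ≠ 2)
    (hO : ∀ Q : Subgroup G, Q.Normal → IsPGroup p Q → Q = ⊥)
    (N : Subgroup G) [N.Normal] [Group.IsNilpotent N] (P : Sylow p G)
    (hNP : (N ⊔ (P : Subgroup G)).Normal) :
    ∃ g ∈ N, (∑ᶠ (s : Finset (Subgroup G))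
        (_ : IsChain (· ≤ ·) (s : Set (Subgroup G)) ∧ ∀ E ∈ s, Adm p g E),
        ((-1 : ℤ) ^ (s.card + 1))) ≠ 0 := by
  have : Fact p.Prime := ⟨hp⟩
  have : Fact (Nat.Prime 2) := ⟨Nat.prime_two⟩
  have hpN : ¬ p ∣ Nat.card N := not_dvd_card_N N hO
  obtain ⟨S⟩ : Nonempty (Sylow 2 N) := inferInstance
  obtain ⟨x, m, hm, hxm, hE⟩ := exists_reg hp hp2 Nat.prime_two N (Or.inl rfl) P hNP hO S
  refine ⟨(x : G), x.2, ?_⟩
  refine sum_ne_zero_of_reg hp Nat.prime_two N hpN S _ x.2 ?_ hE
  intro s hs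
  exact congrArg Subtype.val (commute_sylow Nat.prime_two S x m hm hxm s hs)

/-- if the quotient by `N` is nilpotent, then `N P` is normal -/
theorem normal_of_nilpotent_quotient {G : Type*} [Group G] [Finite G] {p : ℕ} [Fact p.Prime]
    (N : Subgroup G) [N.Normal] [Group.IsNilpotent (G ⧸ N)] (P : Sylow p G) :
    (N ⊔ (P : Subgroup G)).Normal := by
  have hs : Function.Surjective (QuotientGroup.mk' N) := QuotientGroup.mk'_surjective N
  let Q : Sylow p (G ⧸ N) := P.mapSurjective hs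
  have hQ : (Q : Subgroup (G ⧸ N)).Normal := inferInstance
  have h1 : ((Q : Subgroup (G ⧸ N)).comap (QuotientGroup.mk' N)).Normal := inferInstance
  have h2 : (Q : Subgroup (G ⧸ N)) = (P : Subgroup G).map (QuotientGroup.mk' N) :=
    Sylow.coe_mapSurjective hs P
  rw [h2, Subgroup.comap_map_eq, QuotientGroup.ker_mk', sup_comm] at h1
  exact h1

end Pool.Agent.helper95.QL
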