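import Pool.Agent.helper95.QL.RO4

/-!
# Nilpotent groups: coprime elements commute, commutator subgroup does not help to generate
-/

namespace Pool.Agent.helper95.QL

open Finset

theorem commute_of_coprime_pow {N : Type*} [Group N] [Finite N] [Group.IsNilpotent N] (x y : N)
    (a b : ℕ) (hx : x ^ a = 1) (hy : y ^ b = 1) (hab : Nat.Coprime a b) : Commute x y := by
  obtain ⟨e⟩ := ((Group.isNilpotent_of_finite_tfae (G := N)).out 0 4).1 (show Group.IsNilpotent N from inferInstance)
  have key : ∀ q : (Nat.card N).primeFactors, ∀ P : Sylow q N, ∀ u v : (P : Subgroup N),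
      u ^ a = 1 → v ^ b = 1 → u * v = v * u := by
    intro q P u v hu hv
    have hq : Fact (Nat.Prime (q : ℕ)) := ⟨Nat.prime_of_mem_primeFactors q.2⟩
    obtain ⟨i, hi⟩ := (IsPGroup.iff_orderOf.1 P.isPGroup') u
    obtain ⟨j, hj⟩ := (IsPGroup.iff_orderOf.1 P.isPGroup') v
    have h1 : (q : ℕ) ^ i ∣ a := hi ▸ orderOf_dvd_of_pow_eq_one hu
    have h2 : (q : ℕ) ^ j ∣ b := hj ▸ orderOf_dvd_of_pow_eq_one hv
    rcases Nat.eq_zero_or_pos i with h | h
    · subst h
      rw [pow_zero, orderOf_eq_one_iff] at hi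
      rw [hi]; simp
    · rcases Nat.eq_zero_or_pos j with h' | h'
      · subst h'
        rw [pow_zero, orderOf_eq_one_iff] at hj
        rw [hj]; simp
      · exfalso
        have h3 : (q : ℕ) ∣ a := (dvd_pow_self _ h.ne').trans h1
        have h4 : (q : ℕ) ∣ b := (dvd_pow_self _ h'.ne').trans h2
        have h5 := Nat.dvd_gcd h3 h4
        rw [hab] at h5
        exact hq.out.one_lt.ne' (Nat.dvd_one.1 h5)
  have h1 : e.symm x * e.symm y = e.symm y * e.symm x := by
    funext q P
    refine key q P _ _ ?_ ?_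
    · have : (e.symm x) ^ a = 1 := by rw [← map_pow, hx, map_one]
      exact congrFun (congrFun this q) P
    · have : (e.symm y) ^ b = 1 := by rw [← map_pow, hy, map_one]
      exact congrFun (congrFun this q) P
  apply e.symm.injective
  rw [map_mul, map_mul, h1]

theorem eq_top_of_sup_commutator {N : Type*} [Group N] [Finite N] [Group.IsNilpotent N]
    (H : Subgroup N) (h : ∀ n : N, ∃ c ∈ H, c⁻¹ * n ∈ commutator N) : H = ⊤ := by
  by_contra hne
  obtain ⟨M, hM, hHM⟩ := (eq_top_or_exists_le_coatom H).resolve_left hne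
  have hall : ∀ H : Subgroup N, IsCoatom H → H.Normal :=
    ((Group.isNilpotent_of_finite_tfae (G := N)).out 0 2).1
      (show Group.IsNilpotent N from inferInstance)
  have hMn : M.Normal := hall M hM
  have hcomm : commutator N ≤ M := by
    rw [commutator_def, Subgroup.commutator_le]
    intro a _ b _
    change a * b * a⁻¹ * b⁻¹ ∈ M
    by_cases ha : a ∈ M
    · have h1 : b * a⁻¹ * b⁻¹ ∈ M := hMn.conj_mem _ (M.inv_mem ha) b
      have h2 : a * b * a⁻¹ * b⁻¹ = a * (b * a⁻¹ * b⁻¹) := by group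
      rw [h2]
      exact M.mul_mem ha h1
    · have h1 : M ⊔ Subgroup.zpowers a = ⊤ := by
        refine hM.2 _ (lt_of_le_of_ne le_sup_left ?_)
        intro h2
        apply ha
        rw [h2]
        exact Subgroup.mem_sup_right (Subgroup.mem_zpowers a)
      have h2 : b ∈ M ⊔ Subgroup.zpowers a := h1 ▸ Subgroup.mem_top b
      obtain ⟨m, hm, c, hc, rfl⟩ := Subgroup.mem_sup_of_normal_left.1 h2
      obtain ⟨k, rfl⟩ := Subgroup.mem_zpowers_iff.1 hc
      have h3 : a * (m * a ^ k) * a⁻¹ * (m * a ^ k)⁻¹ = (a * m * a⁻¹) * m⁻¹ := by group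
      rw [h3]
      exact M.mul_mem (hMn.conj_mem _ hm a) (M.inv_mem hm)
  apply hM.1
  rw [eq_top_iff]
  intro n _
  obtain ⟨c, hc, hcn⟩ := h n
  have h1 : n = c * (c⁻¹ * n) := by group
  rw [h1]
  exact M.mul_mem (hHM hc) (hcomm hcn)

/-- a single regular vector, without the nontriviality hypothesis -/
theorem exists_regular {p : ℕ} [Fact p.Prime] (hp2 : p ≠ 2) {V : Type*} [AddCommGroup V] [Finite V]
    (hodd : Odd (Nat.card V) ∨ NM p) (hV : ¬ p ∣ Nat.card V) {P : Type*} [Group P] [Finite P]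
    (hP : IsPGroup p P) (φ : P →* AddMonoid.End V) :
    ∃ v : V, ∀ g, φ g v = v → φ g = 1 := by
  rcases subsingleton_or_nontrivial V with h | h
  · exact ⟨0, fun g _ => AddMonoidHom.ext fun x => Subsingleton.elim _ _⟩
  · obtain ⟨v, _, h1, _, _⟩ := regular_orbits hp2 (Nat.card V) V rfl hodd hV P hP φ
    exact ⟨v, h1⟩

end Pool.Agent.helper95.QL
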