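import Pool.Agent.helper95.QL.L1

/-!
# Regular orbits of `p`-groups, `p` odd, on abelian groups of odd order prime to `p`
-/

namespace Pool.Agent.helper95.QL

open Finset

section Rep

variable {P : Type*} [Group P] {V : Type*} [AddCommGroup V]

theorem act_inv_act (φ : P →* AddMonoid.End V) (g : P) (v : V) : φ g⁻¹ (φ g v) = v := by
  have : φ g⁻¹ * φ g = 1 := by rw [← map_mul]; simp
  exact DFunLike.congr_fun this v

theorem act_act_inv (φ : P →* AddMonoid.End V) (g : P) (v : V) : φ g (φ g⁻¹ v) = v := by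
  have : φ g * φ g⁻¹ = 1 := by rw [← map_mul]; simp
  exact DFunLike.congr_fun this v

theorem act_mul (φ : P →* AddMonoid.End V) (g h : P) (v : V) : φ (g * h) v = φ g (φ h v) := by
  rw [map_mul]; rfl

theorem act_one (φ : P →* AddMonoid.End V) (v : V) : φ 1 v = v := by
  rw [map_one]; rfl

theorem act_inj (φ : P →* AddMonoid.End V) (g : P) {v w : V} (h : φ g v = φ g w) : v = w := by
  rw [← act_inv_act φ g v, h, act_inv_act]

/-- restriction of an action to an invariant subgroup -/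
def restr (φ : P →* AddMonoid.End V) (M : AddSubgroup V) (h : ∀ g, ∀ m ∈ M, φ g m ∈ M) :
    P →* AddMonoid.End M where
  toFun g :=
    { toFun := fun m => ⟨φ g (m : V), h g m m.2⟩
      map_zero' := Subtype.ext (map_zero (φ g))
      map_add' := fun a b => Subtype.ext (map_add (φ g) (a : V) (b : V)) }
  map_one' := by
    refine AddMonoidHom.ext fun m => Subtype.ext ?_
    exact act_one φ (m : V)
  map_mul' a b := by
    refine AddMonoidHom.ext fun m => Subtype.ext ?_
    exact act_mul φ a b (m : V)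

theorem restr_apply (φ : P →* AddMonoid.End V) (M : AddSubgroup V)
    (h : ∀ g, ∀ m ∈ M, φ g m ∈ M) (g : P)
    (m : M) : ((restr φ M h g m : M) : V) = φ g (m : V) := rfl

/-- the action on the quotient by an invariant subgroup -/
def quot (φ : P →* AddMonoid.End V) (M : AddSubgroup V) (h : ∀ g, ∀ m ∈ M, φ g m ∈ M) :
    P →* AddMonoid.End (V ⧸ M) where
  toFun g := QuotientAddGroup.map M M (φ g) (fun m hm => h g m hm)
  map_one' := by
    refine AddMonoidHom.ext fun y => ?_
    obtain ⟨m, rfl⟩ := QuotientAddGroup.mk_surjective y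
    exact congrArg (fun v : V => (v : V ⧸ M)) (act_one φ m)
  map_mul' a b := by
    refine AddMonoidHom.ext fun y => ?_
    obtain ⟨m, rfl⟩ := QuotientAddGroup.mk_surjective y
    exact congrArg (fun v : V => (v : V ⧸ M)) (act_mul φ a b m)

theorem quot_mk (φ : P →* AddMonoid.End V) (M : AddSubgroup V) (h : ∀ g, ∀ m ∈ M, φ g m ∈ M)
    (g : P) (m : V) : quot φ M h g (m : V ⧸ M) = (φ g m : V) := rfl

/-- a `p`-group stabilising a coset of a subgroup of order prime to `p` has a fixed point in it -/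
theorem coset_fixed {p : ℕ} [Fact p.Prime] [Finite V] (hP : IsPGroup p P)
    (φ : P →* AddMonoid.End V)
    (M : AddSubgroup V) (hM : ¬ p ∣ Nat.card M) (u : V) (h : ∀ g, φ g u - u ∈ M)
    (hinv : ∀ g, ∀ m ∈ M, φ g m ∈ M) : ∃ m ∈ M, ∀ g, φ g (u + m) = u + m := by
  let β := {w : V // w - u ∈ M}
  have hst : ∀ (g : P) (w : β), φ g w - u ∈ M := by
    rintro g ⟨w, hw⟩
    have : φ g w - u = φ g (w - u) + (φ g u - u) := by rw [map_sub]; abel
    rw [this]
    exact M.add_mem (hinv g _ hw) (h g)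
  let act : MulAction P β :=
    { smul := fun g w => ⟨φ g w, hst g w⟩
      one_smul := by
        rintro ⟨w, hw⟩
        apply Subtype.ext
        exact act_one φ w
      mul_smul := by
        rintro a b ⟨w, hw⟩
        apply Subtype.ext
        exact act_mul φ a b w }
  have hcard : Nat.card β = Nat.card M := by
    refine Nat.card_congr ⟨fun w => ⟨w.1 - u, w.2⟩, fun m => ⟨m.1 + u, by simp⟩, ?_, ?_⟩
    · rintro ⟨w, hw⟩; simp
    · rintro ⟨m, hm⟩; simp
  obtain ⟨⟨w, hw⟩, hfix⟩ := hP.nonempty_fixed_point_of_prime_not_dvd_card β (by rwa [hcard])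
  refine ⟨w - u, hw, fun g => ?_⟩
  have h1 : φ g w = w := congrArg Subtype.val (hfix g)
  simpa using h1

/-- two regular vectors in different orbits -/
def TwoReg (φ : P →* AddMonoid.End V) : Prop :=
  ∃ v w : V, (∀ g, φ g v = v → φ g = 1) ∧ (∀ g, φ g w = w → φ g = 1) ∧ ∀ g, φ g v ≠ w

/-- the reducible case -/
theorem twoReg_of_red {p : ℕ} [Fact p.Prime] [Finite V] (hP : IsPGroup p P)
    (φ : P →* AddMonoid.End V) (hV : ¬ p ∣ Nat.card V)
    (M : AddSubgroup V) (hinv : ∀ g, ∀ m ∈ M, φ g m ∈ M)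
    (h1 : TwoReg (quot φ M hinv))
    (h2 : ∃ m : M, ∀ g ∈ (quot φ M hinv).ker, φ g m = m → ∀ m' ∈ M, φ g m' = m') :
    TwoReg φ := by
  have hM : ¬ p ∣ Nat.card M := fun h => hV (h.trans M.card_addSubgroup_dvd_card)
  obtain ⟨x, x', hx, hx', hne⟩ := h1
  obtain ⟨m, hm⟩ := h2
  set D := (quot φ M hinv).ker with hD
  have hDM : ∀ g ∈ D, ∀ u : V, φ g u - u ∈ M := by
    intro g hg u
    have h3 : quot φ M hinv g = 1 := hg
    have h4 : (φ g u : V ⧸ M) = (u : V ⧸ M) := by
      rw [← quot_mk φ M hinv, h3]; rfl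
    have := (QuotientAddGroup.eq).1 h4.symm
    rwa [neg_add_eq_sub] at this
  -- lifts fixed by `D`
  have hlift : ∀ y : V ⧸ M, ∃ u : V, (u : V ⧸ M) = y ∧ ∀ g ∈ D, φ g u = u := by
    intro y
    obtain ⟨u, rfl⟩ := QuotientAddGroup.mk_surjective y
    obtain ⟨n, hn, hfix⟩ := coset_fixed (hP.to_subgroup D) (φ.comp D.subtype) M hM u
      (fun g => hDM g g.2 u) (fun g n hn => hinv g n hn)
    refine ⟨u + n, ?_, fun g hg => hfix ⟨g, hg⟩⟩
    rw [QuotientAddGroup.eq]
    simpa using M.neg_mem hn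
  -- elements trivial on `M` and on the quotient
  have htriv : ∀ g ∈ D, (∀ m' ∈ M, φ g m' = m') → φ g = 1 := by
    intro g hg hgM
    ext u
    obtain ⟨n, hn, hfix⟩ := coset_fixed (hP.to_subgroup (Subgroup.zpowers g))
      (φ.comp (Subgroup.zpowers g).subtype) M hM u
      (fun k => hDM k ((Subgroup.zpowers_le.2 hg) k.2) u) (fun k n hn => hinv k n hn)
    have h5 : φ g (u + n) = u + n := hfix ⟨g, Subgroup.mem_zpowers g⟩
    rw [map_add, hgM n hn] at h5
    exact add_right_cancel h5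
  have hreg : ∀ y : V ⧸ M, (∀ g, quot φ M hinv g y = y → quot φ M hinv g = 1) →
      ∀ u : V, (u : V ⧸ M) = y → (∀ g ∈ D, φ g u = u) →
      ∀ g, φ g (u + m) = u + m → φ g = 1 := by
    intro y hy u hu hfix g hg
    have h3 : quot φ M hinv g y = y := by
      have h6 : ((u + m : V) : V ⧸ M) = y := by
        rw [← hu, QuotientAddGroup.eq]
        simp
      rw [← h6, quot_mk, hg]
    have h4 : g ∈ D := hy g h3
    apply htriv g h4
    apply hm g h4
    have h5 := hg
    rw [map_add, hfix g h4] at h5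
    exact add_left_cancel h5
  obtain ⟨u, hu, hfu⟩ := hlift x
  obtain ⟨u', hu', hfu'⟩ := hlift x'
  refine ⟨u + m, u' + m, hreg x hx u hu hfu, hreg x' hx' u' hu' hfu', fun g hg => ?_⟩
  apply hne g
  have h6 : ((u + m : V) : V ⧸ M) = x := by
    rw [← hu, QuotientAddGroup.eq]
    simp
  have h7 : ((u' + m : V) : V ⧸ M) = x' := by
    rw [← hu', QuotientAddGroup.eq]
    simp
  rw [← h6, quot_mk, hg, h7]

end Rep

end Pool.Agent.helper95.QL
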