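import Pool.Agent.helper95.QL.RO

/-!
# Regular orbits: the imprimitive case
-/

namespace Pool.Agent.helper95.QL

open Finset

variable {P : Type*} [Group P] {V : Type*} [AddCommGroup V]

/-- the norm of a cyclic group of order `p` -/
def nrm (p : ℕ) (φ : P →* AddMonoid.End V) (a : P) : AddMonoid.End V :=
  ∑ i ∈ range p, φ (a ^ i)

theorem nrm_apply (p : ℕ) (φ : P →* AddMonoid.End V) (a : P) (v : V) :
    nrm p φ a v = ∑ i ∈ range p, φ (a ^ i) v := by
  unfold nrm
  induction range p using Finset.cons_induction with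
  | empty => rfl
  | cons a s ha ih => rw [sum_cons, sum_cons, ← ih]; rfl

theorem act_nrm {p : ℕ} (φ : P →* AddMonoid.End V) (a : P) (ha : a ^ p = 1) (v : V) :
    φ a (nrm p φ a v) = nrm p φ a v := by
  rw [nrm_apply, map_sum]
  have h1 : ∀ i, φ a (φ (a ^ i) v) = φ (a ^ (i + 1)) v := fun i => by
    rw [← act_mul, ← pow_succ']
  simp_rw [h1]
  have h2 := sum_range_succ (fun i => φ (a ^ i) v) p
  have h3 := sum_range_succ' (fun i => φ (a ^ i) v) p
  rw [h2, ha, pow_zero] at h3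
  exact (add_right_cancel h3).symm

theorem act_pow_fix (φ : P →* AddMonoid.End V) (a : P) (v : V) (h : φ a v = v) (n : ℕ) :
    φ (a ^ n) v = v := by
  induction n with
  | zero => rw [pow_zero]; exact act_one φ v
  | succ n ih => rw [pow_succ, act_mul, h, ih]

theorem nrm_fix {p : ℕ} (φ : P →* AddMonoid.End V) (a : P) (v : V) (h : φ a v = v) :
    nrm p φ a v = p • v := by
  rw [nrm_apply, sum_congr rfl (fun i _ => act_pow_fix φ a v h i)]
  simp

theorem nrm_comm {p : ℕ} (φ : P →* AddMonoid.End V) (a b : P) (hab : Commute a b) (v : V) :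
    φ b (nrm p φ a v) = nrm p φ a (φ b v) := by
  rw [nrm_apply, nrm_apply, map_sum]
  refine sum_congr rfl fun i _ => ?_
  rw [← act_mul, ← act_mul, (hab.pow_left i).eq]

theorem nsmul_eq_zero_of_coprime {p : ℕ} (hp : p.Prime) [Finite V] (hV : ¬ p ∣ Nat.card V) (u : V)
    (h : p • u = 0) : u = 0 := by
  have h1 : addOrderOf u ∣ p := addOrderOf_dvd_of_nsmul_eq_zero h
  rcases (Nat.dvd_prime hp).1 h1 with h2 | h2
  · exact AddMonoid.addOrderOf_eq_one_iff.1 h2
  · exact absurd (h2 ▸ addOrderOf_dvd_natCard u) hV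

/-- if a nontrivial power of `z` fixes `u` then so does `z` -/
theorem fix_of_pow_fix {p : ℕ} [Fact p.Prime] (φ : P →* AddMonoid.End V) (z : P) (hzp : z ^ p = 1)
    (i : ℕ) (hi : ¬ p ∣ i) (u : V) (h : φ (z ^ i) u = u) : φ z u = u := by
  have hp : p.Prime := Fact.out
  obtain ⟨l, hl⟩ := Nat.exists_mul_mod_eq_one_of_coprime ((Nat.coprime_comm.1
    ((hp.coprime_iff_not_dvd).2 hi))) hp.one_lt
  have h1 := act_pow_fix φ (z ^ i) u h l
  have h2 : (z ^ i) ^ l = z := by
    rw [← pow_mul, pow_eq_pow_mod _ hzp, hl.2, pow_one]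
  rwa [h2] at h1

theorem sum_nrm {p : ℕ} [Fact p.Prime] (φ : P →* AddMonoid.End V) (z t : P) (hzp : z ^ p = 1)
    (hz0 : ∀ v, φ z v = v → v = 0) (hzt : Commute z t) (v : V) :
    ∑ j ∈ range p, nrm p φ (t * z ^ j) v = p • v := by
  have hp : p.Prime := Fact.out
  have h1 : ∀ j i : ℕ, φ ((t * z ^ j) ^ i) v = φ (t ^ i) (φ ((z ^ i) ^ j) v) := by
    intro j i
    rw [← act_mul, (hzt.pow_left j).symm.mul_pow, ← pow_mul, ← pow_mul, mul_comm i j]
  simp_rw [nrm_apply, h1]
  rw [sum_comm]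
  rw [sum_eq_single 0]
  · simp only [pow_zero, one_pow]
    simp_rw [act_one]
    simp
  · intro i hi hi0
    rw [← map_sum]
    have h2 : ∑ j ∈ range p, φ ((z ^ i) ^ j) v = nrm p φ (z ^ i) v := (nrm_apply p φ _ v).symm
    rw [h2]
    have h3 : φ (z ^ i) (nrm p φ (z ^ i) v) = nrm p φ (z ^ i) v :=
      act_nrm φ (z ^ i) (by rw [← pow_mul, mul_comm, pow_mul, hzp, one_pow]) v
    have h4 : ¬ p ∣ i := fun h => absurd (Nat.le_of_dvd (Nat.pos_of_ne_zero hi0) h)
      (not_le.2 (mem_range.1 hi))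
    rw [hz0 _ (fix_of_pow_fix φ z hzp i h4 _ h3), map_zero]
  · intro h
    exact absurd (mem_range.2 hp.pos) h

/-- powers of `z` indexed by `ZMod p` -/
def zz {p : ℕ} (z : P) (j : ZMod p) : P := z ^ j.val

theorem zz_intCast {p : ℕ} [Fact p.Prime] (z : P) (hzp : z ^ p = 1) (k : ℤ) :
    zz z (k : ZMod p) = z ^ k := by
  unfold zz
  rw [← zpow_natCast]
  have h1 : ((ZMod.val (k : ZMod p) : ℤ) : ZMod p) = (k : ZMod p) := by simp
  have h2 : ((ZMod.val (k : ZMod p) : ℤ)) ≡ k [ZMOD p] := (ZMod.intCast_eq_intCast_iff _ _ _).1 h1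
  obtain ⟨c, hc⟩ := h2.dvd
  have h3 : k = (ZMod.val (k : ZMod p) : ℤ) + p * c := by linarith
  conv_rhs => rw [h3, zpow_add, zpow_mul, zpow_natCast z p, hzp, one_zpow, mul_one]

theorem zz_add {p : ℕ} [Fact p.Prime] (z : P) (hzp : z ^ p = 1) (j k : ZMod p) :
    zz z (j + k) = zz z j * zz z k := by
  have hj : j = ((j.val : ℤ) : ZMod p) := by simp
  have hk : k = ((k.val : ℤ) : ZMod p) := by simp
  conv_lhs => rw [hj, hk, ← Int.cast_add, zz_intCast z hzp, zpow_add, zpow_natCast, zpow_natCast]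
  rfl

theorem zz_zero {p : ℕ} [Fact p.Prime] (z : P) : zz z (0 : ZMod p) = 1 := by
  unfold zz
  simp

theorem zz_pow {p : ℕ} (z : P) (hzp : z ^ p = 1) (j : ZMod p) : (zz z j) ^ p = 1 := by
  unfold zz
  rw [← pow_mul, mul_comm, pow_mul, hzp, one_pow]

/-- the eigenspaces -/
def W {p : ℕ} (φ : P →* AddMonoid.End V) (z t : P) (j : ZMod p) : AddSubgroup V where
  carrier := {v | φ (t * zz z j) v = v}
  zero_mem' := map_zero _
  add_mem' := by
    intro a b ha hb
    change φ _ (a + b) = a + b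
    rw [map_add, ha, hb]
  neg_mem' := by
    intro a ha
    change φ _ (-a) = -a
    rw [map_neg, ha]

theorem mem_W {p : ℕ} (φ : P →* AddMonoid.End V) (z t : P) (j : ZMod p) (v : V) :
    v ∈ W φ z t j ↔ φ (t * zz z j) v = v := Iff.rfl

section Main

variable {p : ℕ} [Fact p.Prime] (φ : P →* AddMonoid.End V) (z t : P) (hzp : z ^ p = 1)
  (hz : ∀ y, Commute z y) (hz0 : ∀ v, φ z v = v → v = 0) (htp : t ^ p = 1)

include hzp hz hz0

theorem W_disj (j k : ZMod p) (hjk : j ≠ k) (u : V) (hj : u ∈ W φ z t j) (hk : u ∈ W φ z t k) :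
    u = 0 := by
  rw [mem_W, act_mul] at hj hk
  have h1 : φ (zz z j) u = φ (zz z k) u := act_inj φ t (hj.trans hk.symm)
  have h2 : φ (zz z (j - k)) (φ (zz z k) u) = φ (zz z k) u := by
    rw [← act_mul, ← zz_add z hzp, sub_add_cancel]
    exact h1
  have h3 : ¬ p ∣ (j - k).val := by
    intro h
    have h4 : ((j - k).val : ZMod p) = 0 := (ZMod.natCast_eq_zero_iff _ _).2 h
    rw [ZMod.natCast_val, ZMod.cast_id] at h4
    exact hjk (sub_eq_zero.1 h4)
  have h4 := hz0 _ (fix_of_pow_fix φ z hzp _ h3 _ h2)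
  have h5 : φ (zz z k) u = φ (zz z k) 0 := by rw [h4, map_zero]
  exact act_inj φ _ h5

theorem W_act (y : P) (k : ℤ) (hy : y * t = t * y * z ^ k) (j : ZMod p) (v : V)
    (hv : v ∈ W φ z t j) : φ y v ∈ W φ z t (j + (k : ZMod p)) := by
  rw [mem_W] at hv ⊢
  rw [← act_mul]
  have h1 : t * zz z (j + (k : ZMod p)) * y = y * (t * zz z j) := by
    have hc1 : Commute (zz z j) y := (hz y).pow_left _
    have hc2 : Commute (z ^ k) y := (hz y).zpow_left _
    have hc3 : Commute (zz z j) (z ^ k) := (hz _).pow_left _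
    rw [zz_add z hzp, zz_intCast z hzp]
    calc t * (zz z j * z ^ k) * y = t * zz z j * (z ^ k * y) := by group
      _ = t * (zz z j * y) * z ^ k := by rw [hc2.eq]; group
      _ = t * y * (zz z j * z ^ k) := by rw [hc1.eq]; group
      _ = t * y * z ^ k * zz z j := by rw [hc3.eq]; group
      _ = y * (t * zz z j) := by rw [← hy]; group
  rw [h1, act_mul, hv]

include htp

theorem nrm_mem_W (j : ZMod p) (v : V) : nrm p φ (t * zz z j) v ∈ W φ z t j := by
  have hc : Commute (zz z j) t := (hz t).pow_left _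
  exact act_nrm φ _ (by rw [hc.symm.mul_pow, htp, zz_pow z hzp, mul_one]) v

theorem sum_eq_zero_W [Finite V] (hV : ¬ p ∣ Nat.card V) (d : ZMod p → V)
    (hd : ∀ j, d j ∈ W φ z t j) (h : ∑ j, d j = 0) (k : ZMod p) : d k = 0 := by
  classical
  have hp : p.Prime := Fact.out
  apply nsmul_eq_zero_of_coprime hp hV
  have h1 : nrm p φ (t * zz z k) (∑ j, d j) = 0 := by rw [h, map_zero]
  rw [map_sum, sum_eq_single k] at h1
  · rwa [nrm_fix φ _ _ (hd k)] at h1
  · intro j _ hjk
    apply W_disj φ z t hzp hz hz0 j k hjk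
    · rw [mem_W]
      have hc : Commute (t * zz z k) (t * zz z j) := by
        have h2 : Commute (zz z k) (t * zz z j) := (hz _).pow_left _
        have h3 : Commute t (zz z j) := ((hz t).pow_left _).symm
        exact (((Commute.refl t).mul_right h3)).mul_left h2
      rw [nrm_comm φ _ _ hc, (mem_W φ z t j _).1 (hd j)]
    · exact nrm_mem_W φ z t hzp hz hz0 htp k _
  · intro h2
    exact absurd (mem_univ k) h2

theorem exists_W_sum [Finite V] (hV : ¬ p ∣ Nat.card V) (v : V) :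
    ∃ d : ZMod p → V, (∀ j, d j ∈ W φ z t j) ∧ v = ∑ j, d j := by
  have hp : p.Prime := Fact.out
  have hco : Nat.Coprime p (Nat.card V) := (hp.coprime_iff_not_dvd).2 hV
  -- an inverse of `p` modulo the order of `V`
  obtain ⟨m, hm⟩ : ∃ m : ℕ, (m * p) • v = v := by
    rcases Nat.eq_or_lt_of_le (Nat.succ_le_of_lt (Nat.card_pos (α := V))) with h1 | h1
    · have : Subsingleton V := (Nat.card_eq_one_iff_unique.1 h1.symm).1
      exact ⟨0, Subsingleton.elim _ _⟩
    · obtain ⟨m, hm⟩ := Nat.exists_mul_mod_eq_one_of_coprime hco h1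
      refine ⟨m, ?_⟩
      have h2 : (p * m) • v = ((p * m) % Nat.card V) • v := by
        conv_lhs => rw [← Nat.mod_add_div (p * m) (Nat.card V), add_smul, mul_smul]
        rw [card_nsmul_eq_zero', add_zero]
      rw [mul_comm, h2, hm.2, one_smul]
  refine ⟨fun j => m • nrm p φ (t * zz z j) v, fun j => (W φ z t j).nsmul_mem
    (nrm_mem_W φ z t hzp hz hz0 htp j v) m, ?_⟩
  rw [← smul_sum]
  have h3 : ∑ j : ZMod p, nrm p φ (t * zz z j) v = ∑ j ∈ range p, nrm p φ (t * z ^ j) v := by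
    refine sum_bij (fun j _ => j.val) (fun j _ => mem_range.2 (ZMod.val_lt j))
      (fun a _ b _ h => ZMod.val_injective p h)
      (fun b hb => ⟨(b : ZMod p), mem_univ _, ZMod.val_cast_of_lt (mem_range.1 hb)⟩)
      (fun j _ => rfl)
  rw [h3, sum_nrm φ z t hzp hz0 (hz t), ← mul_smul, hm]

end Main

end Pool.Agent.helper95.QL
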