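import Pool.Agent.helper95.QL.RO2

/-!
# Regular orbits: induction step in the imprimitive case
-/

namespace Pool.Agent.helper95.QL

open Finset

variable {P : Type*} [Group P] {V : Type*} [AddCommGroup V]

/-- `y` moves `t` to `t z ^ k` -/
def Rel (z t : P) (y : P) (k : ℤ) : Prop := y * t = t * y * z ^ k

theorem Rel.mul {z t : P} (hz : ∀ y, Commute z y) {y y' : P} {k k' : ℤ} (h : Rel z t y k)
    (h' : Rel z t y' k') : Rel z t (y * y') (k + k') := by
  unfold Rel at *
  have hc : Commute (z ^ k) (y' * z ^ k') := (hz _).zpow_left _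
  calc y * y' * t = y * (y' * t) := by group
    _ = (y * t) * (y' * z ^ k') := by rw [h']; group
    _ = t * y * (z ^ k * (y' * z ^ k')) := by rw [h]; group
    _ = t * (y * y') * (z ^ k' * z ^ k) := by rw [hc.eq]; group
    _ = t * (y * y') * z ^ (k + k') := by rw [← zpow_add, add_comm k' k]

theorem Rel.inv {z t : P} (hz : ∀ y, Commute z y) {y : P} {k : ℤ} (h : Rel z t y k) :
    Rel z t y⁻¹ (-k) := by
  unfold Rel at *
  have hc : Commute (z ^ (-k)) y⁻¹ := (hz _).zpow_left _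
  have h1 : t = y⁻¹ * (t * y * z ^ k) := by rw [← h]; group
  calc y⁻¹ * t = y⁻¹ * (t * y * z ^ k) * (z ^ (-k) * y⁻¹) := by group
    _ = t * (z ^ (-k) * y⁻¹) := by rw [← h1]
    _ = t * y⁻¹ * z ^ (-k) := by rw [hc.eq]; group

theorem Rel.pow {z t : P} (hz : ∀ y, Commute z y) {y : P} {k : ℤ} (h : Rel z t y k) (n : ℕ) :
    Rel z t (y ^ n) (n * k) := by
  induction n with
  | zero => simp [Rel]
  | succ n ih =>
    have h1 := ih.mul hz h
    rw [← pow_succ] at h1
    convert h1 using 1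
    push_cast
    ring

/-- the vector with component `a` at `0` and `b` elsewhere -/
def vec {p : ℕ} [Fact p.Prime] (φ : P →* AddMonoid.End V) (g : P) (a b : V) : V :=
  ∑ j : ZMod p, φ (g ^ j.val) (if j = 0 then a else b)

section Main

variable {p : ℕ} [Fact p.Prime] (φ : P →* AddMonoid.End V) (z t : P) (hzp : z ^ p = 1)
  (hz : ∀ y, Commute z y) (hz0 : ∀ v, φ z v = v → v = 0) (htp : t ^ p = 1)
  [Finite V] (hV : ¬ p ∣ Nat.card V) (g : P) (hg : Rel z t g 1)

include hzp hz hz0 hg in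
theorem gpow_mem (j : ZMod p) (a : V) (ha : a ∈ W φ z t (0 : ZMod p)) :
    φ (g ^ j.val) a ∈ W φ z t j := by
  have h1 := Rel.pow hz hg j.val
  have h2 := W_act φ z t hzp hz hz0 (g ^ j.val) _ h1 0 a ha
  have h3 : (0 : ZMod p) + (((j.val : ℕ) : ℤ) * 1 : ℤ) = j := by simp
  rwa [h3] at h2

include hzp hz hz0 htp hV hg in
theorem key (a b a' b' : V) (ha : a ∈ W φ z t (0 : ZMod p)) (hb : b ∈ W φ z t (0 : ZMod p))
    (ha' : a' ∈ W φ z t (0 : ZMod p)) (hb' : b' ∈ W φ z t (0 : ZMod p)) (y : P) (k : ℤ)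
    (hy : Rel z t y k) (h : φ y (vec (p := p) φ g a b) = vec (p := p) φ g a' b') (j : ZMod p) :
    ∃ x : P, x = (g ^ (j + (k : ZMod p)).val)⁻¹ * y * g ^ j.val ∧ Commute x t ∧
      φ x (if j = 0 then a else b) = if j + (k : ZMod p) = 0 then a' else b' := by
  set κ : ZMod p := (k : ZMod p) with hκ
  have hc : ∀ j : ZMod p, (if j = 0 then a else b) ∈ W φ z t (0 : ZMod p) := by
    intro j; split_ifs <;> assumption
  have hc' : ∀ j : ZMod p, (if j = 0 then a' else b') ∈ W φ z t (0 : ZMod p) := by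
    intro j; split_ifs <;> assumption
  -- compare components
  have h1 : ∀ l : ZMod p, φ y (φ (g ^ (l - κ).val) (if l - κ = 0 then a else b)) -
      φ (g ^ l.val) (if l = 0 then a' else b') = 0 := by
    refine sum_eq_zero_W φ z t hzp hz hz0 htp hV (fun l => φ y (φ (g ^ (l - κ).val)
      (if l - κ = 0 then a else b)) - φ (g ^ l.val) (if l = 0 then a' else b')) ?_ ?_
    · intro l
      apply AddSubgroup.sub_mem
      · have h2 := W_act φ z t hzp hz hz0 y k hy (l - κ) _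
          (gpow_mem φ z t hzp hz hz0 g hg (l - κ) _ (hc (l - κ)))
        rwa [← hκ, sub_add_cancel] at h2
      · exact gpow_mem φ z t hzp hz hz0 g hg l _ (hc' l)
    · rw [sum_sub_distrib]
      have h2 : ∑ l : ZMod p, φ y (φ (g ^ (l - κ).val) (if l - κ = 0 then a else b)) =
          ∑ j : ZMod p, φ y (φ (g ^ j.val) (if j = 0 then a else b)) :=
        Fintype.sum_equiv (Equiv.subRight κ) _ _ (fun l => rfl)
      rw [h2, ← map_sum]
      have h3 := h
      unfold vec at h3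
      rw [h3, sub_self]
  refine ⟨_, rfl, ?_, ?_⟩
  · have h2 := ((Rel.pow hz hg (j + κ).val).inv hz).mul hz hy
    have h3 := h2.mul hz (Rel.pow hz hg j.val)
    have h4 : z ^ (-(((j + κ).val : ℤ) * 1) + k + ((j.val : ℤ) * 1)) = 1 := by
      rw [← zz_intCast z hzp]
      have h5 : (((-(((j + κ).val : ℤ) * 1) + k + ((j.val : ℤ) * 1) : ℤ)) : ZMod p) = 0 := by
        push_cast
        rw [ZMod.natCast_val, ZMod.natCast_val, ZMod.cast_id, ZMod.cast_id, ← hκ]
        ring
      rw [h5, zz_zero]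
    unfold Rel at h3
    rw [h4, mul_one] at h3
    exact h3
  · have h2 := h1 (j + κ)
    rw [add_sub_cancel_right, sub_eq_zero] at h2
    rw [act_mul, act_mul, h2, act_inv_act]

/-- the stabiliser of the decomposition -/
def M0 (t : P) : Subgroup P := Subgroup.centralizer {t}

theorem mem_M0 {t x : P} : x ∈ M0 t ↔ Commute x t := by
  unfold M0
  rw [Subgroup.mem_centralizer_singleton_iff]
  exact ⟨fun h => h, fun h => h⟩

include hzp hz hz0 in
theorem M0_inv (x : M0 t) (m : V) (hm : m ∈ W φ z t (0 : ZMod p)) :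
    (φ.comp (M0 t).subtype) x m ∈ W φ z t (0 : ZMod p) := by
  have h1 : Rel z t (x : P) 0 := by
    unfold Rel
    rw [zpow_zero, mul_one]
    exact (mem_M0.1 x.2).eq
  have h2 := W_act φ z t hzp hz hz0 (x : P) 0 h1 0 m hm
  simpa using h2

include hzp hz hz0 htp hV hg in
theorem vec_reg (hrel : ∀ y, ∃ k : ℤ, Rel z t y k)
    (a b : V) (ha : a ∈ W φ z t (0 : ZMod p)) (hb : b ∈ W φ z t (0 : ZMod p))
    (hra : ∀ x, Commute x t → φ x a = a → ∀ u ∈ W φ z t (0 : ZMod p), φ x u = u)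
    (hrb : ∀ x, Commute x t → φ x b = b → ∀ u ∈ W φ z t (0 : ZMod p), φ x u = u)
    (hne : ∀ x, Commute x t → φ x b ≠ a) (y : P)
    (h : φ y (vec (p := p) φ g a b) = vec (p := p) φ g a b) : φ y = 1 := by
  obtain ⟨k, hk⟩ := hrel y
  by_cases hk0 : (k : ZMod p) = 0
  · have h1 : ∀ j : ZMod p, ∀ u ∈ W φ z t j, φ y u = u := by
      intro j u hu
      obtain ⟨x, hx, hxt, hxc⟩ := key φ z t hzp hz hz0 htp hV g hg a b a b ha hb ha hb y k hk h j
      rw [hk0, add_zero] at hx hxc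
      have h2 : ∀ u ∈ W φ z t (0 : ZMod p), φ x u = u := by
        split_ifs at hxc
        · exact hra x hxt hxc
        · exact hrb x hxt hxc
      have h3 : φ (g ^ j.val)⁻¹ u ∈ W φ z t (0 : ZMod p) := by
        have h4 := W_act φ z t hzp hz hz0 _ _ ((Rel.pow hz hg j.val).inv hz) j u hu
        have h5 : j + ((-(((j.val : ℕ) : ℤ) * 1) : ℤ) : ZMod p) = 0 := by
          push_cast
          rw [ZMod.natCast_val, ZMod.cast_id]
          ring
        rwa [h5] at h4
      have h4 := h2 _ h3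
      rw [hx] at h4
      rw [act_mul, act_mul, act_act_inv] at h4
      exact act_inj φ _ h4
    refine AddMonoidHom.ext fun v => ?_
    obtain ⟨d, hd, rfl⟩ := exists_W_sum φ z t hzp hz hz0 htp hV v
    have h2 : φ y (∑ j, d j) = ∑ j, d j := by
      rw [map_sum]
      exact sum_congr rfl fun j _ => h1 j _ (hd j)
    exact h2
  · exfalso
    obtain ⟨x, hx, hxt, hxc⟩ := key φ z t hzp hz hz0 htp hV g hg a b a b ha hb ha hb y k hk h
      (-(k : ZMod p))
    rw [if_neg (neg_ne_zero.2 hk0), neg_add_cancel, if_pos rfl] at hxc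
    exact hne x hxt hxc

include hzp hz hz0 htp hV hg in
theorem vec_ne (hp2 : p ≠ 2) (hrel : ∀ y, ∃ k : ℤ, Rel z t y k)
    (a b : V) (ha : a ∈ W φ z t (0 : ZMod p)) (hb : b ∈ W φ z t (0 : ZMod p))
    (hne : ∀ x, Commute x t → φ x b ≠ a) (y : P)
    (h : φ y (vec (p := p) φ g a b) = vec (p := p) φ g b a) : False := by
  obtain ⟨k, hk⟩ := hrel y
  have hp : p.Prime := Fact.out
  have h10 : (1 : ZMod p) ≠ 0 := one_ne_zero
  have h20 : (2 : ZMod p) ≠ 0 := by
    intro h2
    have : ((2 : ℕ) : ZMod p) = 0 := by exact_mod_cast h2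
    have h3 := (ZMod.natCast_eq_zero_iff _ _).1 this
    exact hp2 ((Nat.prime_dvd_prime_iff_eq hp Nat.prime_two).1 h3)
  obtain ⟨j, hj, hjk⟩ : ∃ j : ZMod p, j ≠ 0 ∧ j + (k : ZMod p) ≠ 0 := by
    by_cases h1 : (1 : ZMod p) + k = 0
    · refine ⟨2, h20, ?_⟩
      have : (2 : ZMod p) + k = 1 + (1 + k) := by ring
      rw [this, h1, add_zero]
      exact h10
    · exact ⟨1, h10, h1⟩
  obtain ⟨x, hx, hxt, hxc⟩ := key φ z t hzp hz hz0 htp hV g hg a b b a ha hb hb ha y k hk h j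
  rw [if_neg hj, if_neg hjk] at hxc
  exact hne x hxt hxc

include hzp hz hz0 htp hV hg in
/-- the imprimitive case -/
theorem twoReg_of_imprim (hp2 : p ≠ 2) (hrel : ∀ y, ∃ k : ℤ, Rel z t y k)
    (h : TwoReg (restr (φ.comp (M0 t).subtype) (W φ z t (0 : ZMod p))
      (fun x m hm => M0_inv φ z t hzp hz hz0 x m hm))) : TwoReg φ := by
  obtain ⟨⟨a, ha⟩, ⟨b, hb⟩, hra, hrb, hne⟩ := h
  have hra' : ∀ x, Commute x t → φ x a = a → ∀ u ∈ W φ z t (0 : ZMod p), φ x u = u := by
    intro x hx hxa u hu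
    have h1 := hra ⟨x, mem_M0.2 hx⟩ (Subtype.ext hxa)
    have h2 := DFunLike.congr_fun h1 ⟨u, hu⟩
    exact congrArg Subtype.val h2
  have hrb' : ∀ x, Commute x t → φ x b = b → ∀ u ∈ W φ z t (0 : ZMod p), φ x u = u := by
    intro x hx hxa u hu
    have h1 := hrb ⟨x, mem_M0.2 hx⟩ (Subtype.ext hxa)
    have h2 := DFunLike.congr_fun h1 ⟨u, hu⟩
    exact congrArg Subtype.val h2
  have hne' : ∀ x, Commute x t → φ x a ≠ b := by
    intro x hx hxa
    exact hne ⟨x, mem_M0.2 hx⟩ (Subtype.ext hxa)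
  have hne'' : ∀ x, Commute x t → φ x b ≠ a := by
    intro x hx hxa
    apply hne' x⁻¹ hx.inv_left
    rw [← hxa, act_inv_act]
  refine ⟨vec (p := p) φ g a b, vec (p := p) φ g b a, ?_, ?_, ?_⟩
  · exact fun y hy => vec_reg φ z t hzp hz hz0 htp hV g hg hrel a b ha hb hra' hrb' hne'' y hy
  · exact fun y hy => vec_reg φ z t hzp hz hz0 htp hV g hg hrel b a hb ha hrb' hra' hne' y hy
  · exact fun y hy => vec_ne φ z t hzp hz hz0 htp hV g hg hp2 hrel a b ha hb hne'' y hy

end Main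

end Pool.Agent.helper95.QL
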