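import Pool.Agent.helper95.QL.RO3

/-!
# Regular orbits: the theorem
-/

namespace Pool.Agent.helper95.QL

open Finset

universe u v

/-- `p` is not a Mersenne prime, in the form used below -/
def NM (p : ℕ) : Prop := ∀ a b : ℕ, 1 ≤ b → 2 ^ a ≠ p ^ b + 1

theorem nm_of {p : ℕ} (hp : p.Prime) (hp2 : p ≠ 2) (h : ∀ a : ℕ, 2 ^ a ≠ p + 1) : NM p := by
  intro a b hb hab
  have hodd : Odd p := hp.odd_of_ne_two hp2
  rcases Nat.even_or_odd b with hb2 | hb2
  · -- `p ^ b` is an odd square, so `p ^ b + 1` is `2` modulo `4`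
    obtain ⟨c, rfl⟩ := hb2
    have h1 : p ^ (c + c) % 4 = 1 := by
      obtain ⟨k, hk⟩ := hodd.pow (n := c)
      rw [pow_add, hk]
      have : (2 * k + 1) * (2 * k + 1) = 4 * (k * k + k) + 1 := by ring
      rw [this]
      omega
    have h2 : 2 ^ a % 4 = 2 := by rw [hab]; omega
    have h3 : a = 1 := by
      rcases a with _ | _ | a
      · simp at h2
      · rfl
      · exfalso
        have : 2 ^ (a + 2) = 4 * 2 ^ a := by ring
        rw [this] at h2
        omega
    subst h3
    have h4 : p ^ (c + c) = 1 := by omega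
    have h5 : 2 ≤ p ^ (c + c) := by
      calc 2 ≤ p := hp.two_le
        _ = p ^ 1 := (pow_one p).symm
        _ ≤ p ^ (c + c) := Nat.pow_le_pow_right hp.pos hb
    omega
  · have h1 : p + 1 ∣ p ^ b + 1 ^ b := hb2.nat_add_dvd_pow_add_pow p 1
    rw [one_pow, ← hab] at h1
    obtain ⟨k, _, hk⟩ := (Nat.dvd_prime_pow Nat.prime_two).1 h1
    exact h k hk.symm

/-- two regular orbits for every action of a `p`-group on a nontrivial abelian group `V` -/
def Good (p : ℕ) (V : Type u) [AddCommGroup V] : Prop :=
  ∀ (P : Type v) [Group P] [Finite P], IsPGroup p P → ∀ φ : P →* AddMonoid.End V, TwoReg φ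

theorem twoReg_irred {p : ℕ} [Fact p.Prime] (hp2 : p ≠ 2) {V : Type u} [AddCommGroup V] [Finite V]
    [Nontrivial V] (hodd : Odd (Nat.card V) ∨ NM p) (hV : ¬ p ∣ Nat.card V) {P : Type v} [Group P]
    [Finite P] [Nontrivial P] (hP : IsPGroup p P) (φ : P →* AddMonoid.End V)
    (hinj : ∀ g, φ g = 1 → g = 1)
    (hirr : ∀ M : AddSubgroup V, (∀ g, ∀ m ∈ M, φ g m ∈ M) → M = ⊥ ∨ M = ⊤)
    (hIH : ∀ M : AddSubgroup V, M ≠ ⊥ → M ≠ ⊤ → Good.{u, v} p M) : TwoReg φ := by
  have hp : p.Prime := Fact.out
  -- a central element of order `p`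
  have hcen : Nontrivial (Subgroup.center P) := hP.center_nontrivial
  obtain ⟨z, hzc, hzp, hz1⟩ : ∃ z : P, z ∈ Subgroup.center P ∧ z ^ p = 1 ∧ z ≠ 1 := by
    have h1 : IsPGroup p (Subgroup.center P) := hP.to_subgroup _
    have h2 : p ∣ Nat.card (Subgroup.center P) := by
      rcases h1.card_eq_or_dvd with h | h
      · exact absurd h (ne_of_gt Finite.one_lt_card)
      · exact h
    obtain ⟨z, hz⟩ := exists_prime_orderOf_dvd_card' p h2
    refine ⟨z, z.2, ?_, ?_⟩
    · have := pow_orderOf_eq_one z
      rw [hz] at this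
      exact congrArg Subtype.val this
    · intro h
      have : z = 1 := Subtype.ext h
      rw [this, orderOf_one] at hz
      exact hp.one_lt.ne hz
  have hz : ∀ y, Commute z y := fun y => (Subgroup.mem_center_iff.1 hzc y).symm
  have hz0 : ∀ v, φ z v = v → v = 0 := by
    let M : AddSubgroup V :=
      { carrier := {v | φ z v = v}
        zero_mem' := map_zero _
        add_mem' := by
          intro a b ha hb
          change φ _ (a + b) = a + b
          rw [map_add, ha, hb]
        neg_mem' := by
          intro a ha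
          change φ _ (-a) = -a
          rw [map_neg, ha] }
    rcases hirr M (fun g m hm => by
      change φ z (φ g m) = φ g m
      rw [← act_mul, (hz g).eq, act_mul, show φ z m = m from hm]) with h | h
    · intro v hv
      have : v ∈ M := hv
      rw [h] at this
      exact (AddSubgroup.mem_bot).1 this
    · exfalso
      apply hz1
      apply hinj
      refine AddMonoidHom.ext fun v => ?_
      have : v ∈ M := h ▸ AddSubgroup.mem_top v
      exact this
  by_cases hcyc : ∀ x : P, x ^ p = 1 → x ∈ Subgroup.zpowers z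
  · -- all nonzero vectors are regular
    have hreg : ∀ v : V, v ≠ 0 → ∀ g, φ g v = v → φ g = 1 := by
      intro v hv g hg
      by_contra hne
      have hg1 : g ≠ 1 := fun h => hne (by rw [h, map_one])
      obtain ⟨n, hn⟩ := (IsPGroup.iff_orderOf.1 hP) g
      have hn0 : n ≠ 0 := by
        rintro rfl
        rw [pow_zero, orderOf_eq_one_iff] at hn
        exact hg1 hn
      obtain ⟨m, rfl⟩ := Nat.exists_eq_succ_of_ne_zero hn0
      have h1 : (g ^ p ^ m) ^ p = 1 := by
        rw [← pow_mul, ← pow_succ, ← Nat.succ_eq_add_one, ← hn, pow_orderOf_eq_one]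
      have h2 : g ^ p ^ m ≠ 1 := by
        intro h
        have h3 := orderOf_dvd_of_pow_eq_one h
        rw [hn] at h3
        have h4 := (Nat.pow_dvd_pow_iff_le_right hp.one_lt).1 h3
        omega
      have h3 := hcyc _ h1
      obtain ⟨k, hk⟩ := (Submonoid.mem_powers_iff _ _).1 ((mem_powers_iff_mem_zpowers).2 h3)
      have h4 : φ (z ^ k) v = v := by
        rw [hk]
        exact act_pow_fix φ g v hg _
      have h5 : ¬ p ∣ k := by
        rintro ⟨c, rfl⟩
        apply h2
        rw [← hk, pow_mul, hzp, one_pow]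
      exact hv (hz0 v (fix_of_pow_fix φ z hzp k h5 v h4))
    obtain ⟨v, hv⟩ := exists_ne (0 : V)
    by_cases hex : ∃ w : V, w ≠ 0 ∧ ∀ g, φ g v ≠ w
    · obtain ⟨w, hw, hne⟩ := hex
      exact ⟨v, w, hreg v hv, hreg w hw, hne⟩
    · exfalso
      push Not at hex
      have hbij : Function.Bijective (fun g : P => (⟨φ g v, fun h => hv (by
          rw [← act_inv_act φ g v, h, map_zero])⟩ : {w : V // w ≠ 0})) := by
        constructor
        · intro a b hab
          have h1 : φ a v = φ b v := congrArg Subtype.val hab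
          have h2 : φ (b⁻¹ * a) v = v := by
            rw [act_mul, h1, act_inv_act]
          have h3 := hinj _ (hreg v hv _ h2)
          exact (inv_mul_eq_one.1 h3).symm
        · rintro ⟨w, hw⟩
          obtain ⟨g, hg⟩ := hex w hw
          exact ⟨g, Subtype.ext hg⟩
      have hc1 : Nat.card P = Nat.card {w : V // w ≠ 0} := Nat.card_congr (Equiv.ofBijective _ hbij)
      have hc2 : Nat.card {w : V // w ≠ 0} + 1 = Nat.card V := by
        classical
        have := Fintype.ofFinite V
        rw [Nat.card_eq_fintype_card, Nat.card_eq_fintype_card, Fintype.card_subtype_compl]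
        simp only [Fintype.card_unique]
        have : 0 < Fintype.card V := Fintype.card_pos
        omega
      have hc3 : Odd (Nat.card P) := by
        obtain ⟨n, hn⟩ := (IsPGroup.iff_card).1 hP
        rw [hn]
        exact (hp.odd_of_ne_two hp2).pow
      rw [← hc1] at hc2
      by_cases hodd' : Odd (Nat.card V)
      · rw [← hc2] at hodd'
        obtain ⟨a, ha⟩ := hodd'
        obtain ⟨b, hb⟩ := hc3
        omega
      · have hNM : NM p := hodd.resolve_left hodd'
        have heven : 2 ∣ Nat.card V := even_iff_two_dvd.1 (Nat.not_odd_iff_even.1 hodd')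
        have h2f : Fact (Nat.Prime 2) := ⟨Nat.prime_two⟩
        obtain ⟨u, hu⟩ := exists_prime_addOrderOf_dvd_card' (G := V) 2 heven
        let M : AddSubgroup V := (nsmulAddMonoidHom 2 : V →+ V).ker
        have hM : ∀ v : V, v ∈ M ↔ 2 • v = 0 := fun v => Iff.rfl
        have hMtop : M = ⊤ := by
          rcases hirr M (fun g m hm => by
            rw [hM] at hm ⊢
            rw [← map_nsmul, hm, map_zero]) with h | h
          · exfalso
            have h1 : u ∈ M := by
              rw [hM]
              have := addOrderOf_nsmul_eq_zero u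
              rwa [hu] at this
            rw [h, AddSubgroup.mem_bot] at h1
            rw [h1, addOrderOf_zero] at hu
            omega
          · exact h
        have hpow : Nat.card V = 2 ^ (Nat.card V).primeFactorsList.length := by
          apply Nat.eq_prime_pow_of_unique_prime_dvd Nat.card_pos.ne'
          intro d hd hdV
          have : Fact d.Prime := ⟨hd⟩
          obtain ⟨w, hw⟩ := exists_prime_addOrderOf_dvd_card' (G := V) d hdV
          have h1 : w ∈ M := hMtop ▸ AddSubgroup.mem_top w
          have h2 : addOrderOf w ∣ 2 := addOrderOf_dvd_of_nsmul_eq_zero ((hM w).1 h1)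
          rw [hw] at h2
          exact (Nat.prime_dvd_prime_iff_eq hd Nat.prime_two).1 h2
        obtain ⟨n, hn⟩ := (IsPGroup.iff_card).1 hP
        have hn1 : 1 ≤ n := by
          by_contra h
          have h0 : n = 0 := by omega
          rw [h0, pow_zero] at hn
          exact absurd hn (ne_of_gt Finite.one_lt_card)
        rw [hpow, hn] at hc2
        exact hNM _ n hn1 hc2.symm
  · push Not at hcyc
    obtain ⟨x, hxp, hx⟩ := hcyc
    obtain ⟨t, ht, htp, hrel0⟩ := exists_central_mod hp2 hP z hzc hzp x hx hxp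
    have hrel : ∀ y, ∃ k : ℤ, Rel z t y k := by
      intro y
      obtain ⟨k, hk⟩ := hrel0 y
      exact ⟨k, by unfold Rel; rw [zpow_natCast]; exact hk⟩
    have hzz : ∀ j : ZMod p, zz z j ∈ Subgroup.zpowers z := fun j =>
      Subgroup.pow_mem _ (Subgroup.mem_zpowers z) _
    -- no `W j` is everything
    have hWtop : ∀ j : ZMod p, W φ z t j ≠ ⊤ := by
      intro j h
      have h1 : φ (t * zz z j) = 1 := by
        refine AddMonoidHom.ext fun v => ?_
        have : v ∈ W φ z t j := h ▸ AddSubgroup.mem_top v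
        exact this
      have h2 := hinj _ h1
      apply ht
      rw [eq_inv_of_mul_eq_one_left h2]
      exact Subgroup.inv_mem _ (hzz j)
    obtain ⟨v₀, hv₀⟩ := exists_ne (0 : V)
    obtain ⟨d, hd, hsum⟩ := exists_W_sum φ z t hzp hz hz0 htp hV v₀
    obtain ⟨j₀, hj₀⟩ : ∃ j, d j ≠ 0 := by
      by_contra h
      push Not at h
      apply hv₀
      rw [hsum]
      exact sum_eq_zero fun j _ => h j
    obtain ⟨g, hg⟩ : ∃ g, Rel z t g 1 := by
      by_cases hall : ∀ y (k : ℤ), Rel z t y k → z ^ k = 1
      · exfalso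
        rcases hirr (W φ z t j₀) (fun y m hm => by
          obtain ⟨k, hk⟩ := hrel y
          have h1 := hall y k hk
          have h2 : Rel z t y 0 := by
            unfold Rel at hk ⊢
            rw [hk, h1, zpow_zero]
          have h3 := W_act φ z t hzp hz hz0 y 0 h2 j₀ m hm
          simpa using h3) with h | h
        · apply hj₀
          have := hd j₀
          rw [h] at this
          exact AddSubgroup.mem_bot.1 this
        · exact hWtop j₀ h
      · push Not at hall
        obtain ⟨y, k, hk, hzk⟩ := hall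
        have hk0 : (k : ZMod p) ≠ 0 := by
          intro h
          apply hzk
          rw [← zz_intCast z hzp, h, zz_zero]
        refine ⟨y ^ ((k : ZMod p)⁻¹).val, ?_⟩
        have h1 := Rel.pow hz hk ((k : ZMod p)⁻¹).val
        have h2 : z ^ ((((k : ZMod p)⁻¹).val : ℤ) * k) = z ^ (1 : ℤ) := by
          rw [← zz_intCast z hzp, ← zz_intCast z hzp]
          congr 1
          push_cast
          rw [ZMod.natCast_val, ZMod.cast_id, inv_mul_cancel₀ hk0]
        unfold Rel at h1 ⊢
        rw [h1, h2]
    have hWbot : W φ z t (0 : ZMod p) ≠ ⊥ := by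
      intro h
      have h4 := W_act φ z t hzp hz hz0 _ _ ((Rel.pow hz hg j₀.val).inv hz) j₀ _ (hd j₀)
      have h5 : j₀ + ((-(((j₀.val : ℕ) : ℤ) * 1) : ℤ) : ZMod p) = 0 := by
        push_cast
        rw [ZMod.natCast_val, ZMod.cast_id]
        ring
      rw [h5, h] at h4
      have h6 := AddSubgroup.mem_bot.1 h4
      apply hj₀
      apply act_inj φ (g ^ j₀.val)⁻¹
      rw [h6, map_zero]
    exact twoReg_of_imprim φ z t hzp hz hz0 htp hV g hg hp2 hrel
      (hIH _ hWbot (hWtop 0) _ (hP.to_subgroup _) _)

theorem twoReg_of_quot {V : Type u} [AddCommGroup V] {P : Type v} [Group P]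
    (φ : P →* AddMonoid.End V) (ψ : P ⧸ φ.ker →* AddMonoid.End V)
    (hψ : ∀ g : P, ψ (g : P ⧸ φ.ker) = φ g) (h : TwoReg ψ) : TwoReg φ := by
  obtain ⟨v, w, h1, h2, h3⟩ := h
  refine ⟨v, w, fun g hg => ?_, fun g hg => ?_, fun g => ?_⟩
  · rw [← hψ]
    exact h1 _ (by rw [hψ, hg])
  · rw [← hψ]
    exact h2 _ (by rw [hψ, hg])
  · rw [← hψ]
    exact h3 _

/-- **Regular orbits.** -/
theorem regular_orbits {p : ℕ} [Fact p.Prime] (hp2 : p ≠ 2) : ∀ n : ℕ, ∀ (V : Type u)
    [AddCommGroup V] [Finite V] [Nontrivial V], Nat.card V = n → (Odd (Nat.card V) ∨ NM p) →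
    ¬ p ∣ Nat.card V → Good.{u, v} p V := by
  intro n
  induction n using Nat.strong_induction_on with
  | _ n ih =>
    intro V _ _ _ hn hodd hV P _ _ hP φ
    have hsub : ∀ M : AddSubgroup V, M ≠ ⊥ → M ≠ ⊤ → Good.{u, v} p M := by
      intro M hMb hMt
      have h1 : Nontrivial M := (AddSubgroup.nontrivial_iff_ne_bot M).2 hMb
      have h2 : Nat.card M ∣ Nat.card V := M.card_addSubgroup_dvd_card
      have h3 : Nat.card M < n := by
        rw [← hn]
        refine lt_of_le_of_ne (Nat.le_of_dvd Nat.card_pos h2) ?_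
        intro h
        exact hMt ((AddSubgroup.card_eq_iff_eq_top M).1 h)
      exact ih _ h3 M rfl (hodd.imp_left fun h => Odd.of_dvd_nat h h2) (fun h => hV (h.trans h2))
    by_cases hred : ∃ M : AddSubgroup V, (∀ g, ∀ m ∈ M, φ g m ∈ M) ∧ M ≠ ⊥ ∧ M ≠ ⊤
    · obtain ⟨M, hinv, hMb, hMt⟩ := hred
      have h1 : Nontrivial (V ⧸ M) := by
        by_contra h
        rw [not_nontrivial_iff_subsingleton] at h
        exact hMt ((QuotientAddGroup.subsingleton_iff).1 h)
      have h2 : Nat.card V = Nat.card (V ⧸ M) * Nat.card M :=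
        AddSubgroup.card_eq_card_quotient_mul_card_addSubgroup M
      have h3 : Nontrivial M := (AddSubgroup.nontrivial_iff_ne_bot M).2 hMb
      have h4 : 1 < Nat.card M := Finite.one_lt_card
      have h5 : Nat.card (V ⧸ M) < n := by
        rw [← hn, h2]
        have : 0 < Nat.card (V ⧸ M) := Nat.card_pos
        nlinarith
      have h6 : Nat.card (V ⧸ M) ∣ Nat.card V := ⟨_, h2⟩
      refine twoReg_of_red hP φ hV M hinv
        (ih _ h5 (V ⧸ M) rfl (hodd.imp_left fun h => Odd.of_dvd_nat h h6) (fun h => hV (h.trans h6)) P hP _) ?_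
      have hinv' : ∀ g : (quot φ M hinv).ker, ∀ m ∈ M,
          (φ.comp (quot φ M hinv).ker.subtype) g m ∈ M := fun g m hm => hinv g m hm
      obtain ⟨m, _, hm, _, _⟩ := hsub M hMb hMt _ (hP.to_subgroup (quot φ M hinv).ker)
        (restr (φ.comp (quot φ M hinv).ker.subtype) M hinv')
      refine ⟨m, fun g hg hgm m' hm' => ?_⟩
      have h7 := hm ⟨g, hg⟩ (Subtype.ext hgm)
      exact congrArg Subtype.val (DFunLike.congr_fun h7 ⟨m', hm'⟩)
    · push Not at hred
      by_cases htriv : ∀ g, φ g = 1
      · obtain ⟨w, hw⟩ := exists_ne (0 : V)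
        refine ⟨0, w, fun g _ => htriv g, fun g _ => htriv g, fun g => ?_⟩
        rw [map_zero]
        exact hw.symm
      · let ψ : P ⧸ φ.ker →* AddMonoid.End V := QuotientGroup.lift φ.ker φ (fun g hg => hg)
        have hψ : ∀ g : P, ψ (g : P ⧸ φ.ker) = φ g := fun g => rfl
        apply twoReg_of_quot φ ψ hψ
        have h1 : Nontrivial (P ⧸ φ.ker) := by
          by_contra h
          rw [not_nontrivial_iff_subsingleton] at h
          apply htriv
          intro g
          rw [← hψ g, Subsingleton.elim (g : P ⧸ φ.ker) 1, map_one]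
        refine twoReg_irred hp2 hodd hV (hP.to_quotient _) ψ ?_ ?_ hsub
        · intro g hg
          obtain ⟨g, rfl⟩ := QuotientGroup.mk_surjective g
          exact (QuotientGroup.eq_one_iff g).2 hg
        · intro M hM
          by_contra h
          push Not at h
          exact h.2 (hred M (fun g m hm => hM (g : P ⧸ φ.ker) m hm) h.1)

end Pool.Agent.helper95.QL
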